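import Mathlib
import Pool.Agent.H499R2.CO.R2

set_option autoImplicit false

namespace Pool.Agent.K6.H38.CT

open Finset Filter Topology
open Pool.Agent.H499R2.CO

/-! Expected numbers of visits for the chain of pairs. -/

/-- the pair is at level `0` and the parities differ -/
noncomputable def bz (s : ℕ × ℤ) : ℝ := if s.1 = 0 ∧ s.2 % 2 = 1 then 1 else 0

/-- the pair is at level `0` and has not coalesced -/
noncomputable def bl (s : ℕ × ℤ) : ℝ := if s.1 = 0 ∧ s.2 ≠ 0 then 1 else 0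

theorem bz_nonneg (s : ℕ × ℤ) : 0 ≤ bz s := by unfold bz; split_ifs <;> norm_num

theorem bl_nonneg (s : ℕ × ℤ) : 0 ≤ bl s := by unfold bl; split_ifs <;> norm_num

theorem bl_le_one (s : ℕ × ℤ) : bl s ≤ 1 := by unfold bl; split_ifs <;> norm_num

theorem bz_le (s : ℕ × ℤ) : bz s ≤ bl s := by
  unfold bz bl
  by_cases h : s.1 = 0 ∧ s.2 % 2 = 1
  · rw [if_pos h, if_pos ⟨h.1, by have := h.2; omega⟩]
  · rw [if_neg h]; split_ifs <;> norm_num

theorem step_o (c : Bool) : step (0, 0) c = (0, 0) := by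
  cases c
  · rw [step_ef (by norm_num)]; norm_num
  · rw [step_et (by norm_num)]; norm_num

theorem P_o (F : ℕ × ℤ → ℝ) : P F (0, 0) = F (0, 0) := by
  unfold P; rw [step_o, step_o]; ring

theorem P_const_mul (c : ℝ) (F : ℕ × ℤ → ℝ) (s : ℕ × ℤ) : P (fun s => c * F s) s = c * P F s := by
  unfold P; ring

theorem P_add (F G : ℕ × ℤ → ℝ) (s : ℕ × ℤ) : P (fun s => F s + G s) s = P F s + P G s := by
  unfold P; ring

theorem P_level (s : ℕ × ℤ) : P (fun s => (s.1 : ℝ)) s = s.1 + bz s := by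
  obtain ⟨i, r⟩ := s
  unfold P bz
  rcases Int.emod_two_eq_zero_or_one r with hr | hr
  · rw [step_ef hr, step_et hr, if_neg (by simp [hr])]; simp only; ring
  · rcases i with _ | j
    · rw [step_0f hr, step_0t hr, if_pos ⟨rfl, hr⟩]; norm_num
    · rw [step_sf hr, step_st hr, if_neg (by simp)]; push_cast; ring

/-- expected number of visits (weighted with `β`) in the first `k` states -/
noncomputable def Nb (β : ℕ × ℤ → ℝ) : ℕ → ℕ × ℤ → ℝ
  | 0, _ => 0
  | k + 1, s => β s + P (Nb β k) s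

theorem Nb_succ (β : ℕ × ℤ → ℝ) (k : ℕ) (s : ℕ × ℤ) : Nb β (k + 1) s = β s + P (Nb β k) s := rfl

theorem Nb_nonneg {β : ℕ × ℤ → ℝ} (hβ : ∀ s, 0 ≤ β s) : ∀ (k : ℕ) (s : ℕ × ℤ), 0 ≤ Nb β k s := by
  intro k
  induction k with
  | zero => intro s; exact le_rfl
  | succ k ih => intro s; rw [Nb_succ]; exact add_nonneg (hβ s) (P_nonneg ih s)

theorem Nb_mono {β : ℕ × ℤ → ℝ} (hβ : ∀ s, 0 ≤ β s) : ∀ (k : ℕ) (s : ℕ × ℤ), Nb β k s ≤ Nb β (k + 1) s := by
  intro k
  induction k with
  | zero => intro s; exact Nb_nonneg hβ 1 s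
  | succ k ih => intro s; rw [Nb_succ, Nb_succ β (k + 1)]; exact add_le_add le_rfl (P_mono ih s)

theorem Nb_le_of_le {β γ : ℕ × ℤ → ℝ} (h : ∀ s, β s ≤ γ s) : ∀ (k : ℕ) (s : ℕ × ℤ), Nb β k s ≤ Nb γ k s := by
  intro k
  induction k with
  | zero => intro s; exact le_rfl
  | succ k ih => intro s; rw [Nb_succ, Nb_succ]; exact add_le_add (h s) (P_mono ih s)

theorem Nb_le_k {β : ℕ × ℤ → ℝ} (h : ∀ s, β s ≤ 1) : ∀ (k : ℕ) (s : ℕ × ℤ), Nb β k s ≤ k := by
  intro k
  induction k with
  | zero => intro s; simp [Nb]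
  | succ k ih =>
    intro s; rw [Nb_succ]; push_cast
    have h1 := ih (step s false)
    have h2 := ih (step s true)
    have h3 := h s
    unfold P; linarith

theorem Nb_o {β : ℕ × ℤ → ℝ} (h : β (0, 0) = 0) : ∀ k : ℕ, Nb β k (0, 0) = 0 := by
  intro k
  induction k with
  | zero => rfl
  | succ k ih => rw [Nb_succ, P_o, h, ih]; norm_num

theorem Nb_add (β : ℕ × ℤ → ℝ) (k : ℕ) : ∀ (j : ℕ) (s : ℕ × ℤ),
    Nb β (j + k) s = Nb β j s + (P^[j] (Nb β k)) s := by
  intro j
  induction j with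
  | zero => intro s; simp [Nb]
  | succ j ih =>
    intro s
    rw [show j + 1 + k = (j + k) + 1 by ring, Nb_succ, Nb_succ, Function.iterate_succ_apply']
    have h : Nb β (j + k) = fun s => Nb β j s + (P^[j] (Nb β k)) s := funext ih
    rw [h, P_add]
    ring

theorem level_iter : ∀ (k : ℕ) (s : ℕ × ℤ), (P^[k] (fun s => (s.1 : ℝ))) s = s.1 + Nb bz k s := by
  intro k
  induction k with
  | zero => intro s; simp [Nb]
  | succ k ih =>
    intro s
    rw [Function.iterate_succ_apply', Nb_succ]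
    have h : P^[k] (fun s => (s.1 : ℝ)) = fun s => (s.1 : ℝ) + Nb bz k s := funext ih
    rw [h, P_add, P_level]
    ring

theorem q_succ_eq (k : ℕ) (s : ℕ × ℤ) : q step (0, 0) (k + 1) s = P (fun s => q step (0, 0) k s) s := by
  by_cases h : s = (0, 0)
  · subst h; rw [P_o, q_o, q_o]
  · rw [q_succ _ _ h]; rfl

theorem P_iter_le_q {A : ℝ} : ∀ (k : ℕ) (F : ℕ × ℤ → ℝ), (∀ s, F s ≤ A) → F (0, 0) ≤ 0 →
    ∀ s, (P^[k] F) s ≤ A * q step (0, 0) k s := by
  intro k F hF h0
  induction k with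
  | zero =>
    intro s
    by_cases h : s = (0, 0)
    · subst h; rw [q_o, mul_zero]; exact h0
    · rw [q_zero_ne _ _ h, mul_one]; exact hF s
  | succ k ih =>
    intro s
    rw [Function.iterate_succ_apply', q_succ_eq, ← P_const_mul]
    exact P_mono ih s

open Classical in
/-- visits to the finite set, the coalesced state excluded -/
noncomputable def bf (s : ℕ × ℤ) : ℝ := if s ∈ FF ∧ s ≠ (0, 0) then 1 else 0

theorem exists_m0 : ∃ m0 : ℕ, ∀ s ∈ FF, q step (0, 0) m0 s ≤ 1 / 4 := by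
  have hfin : ∀ᶠ k in atTop, ∀ s ∈ FF, q step (0, 0) k s ≤ 1 / 4 := by
    rw [eventually_all_finite FF_finite]
    intro s _
    filter_upwards [(q_lim s).eventually (gt_mem_nhds (show (0 : ℝ) < 1 / 4 by norm_num))] with k hk
    exact hk.le
  exact hfin.exists

theorem Nb_bf_le : ∃ A : ℝ, 0 ≤ A ∧ ∀ (k : ℕ) (s : ℕ × ℤ), Nb bf k s ≤ A := by
  classical
  obtain ⟨m0, hm0⟩ := exists_m0
  have hb1 : ∀ s, bf s ≤ 1 := by intro s; unfold bf; split_ifs <;> norm_num
  have hb0 : ∀ s, 0 ≤ bf s := by intro s; unfold bf; split_ifs <;> norm_num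
  have hbo : bf (0, 0) = 0 := by unfold bf; rw [if_neg (by simp)]
  refine ⟨2 * m0, by positivity, ?_⟩
  intro k
  induction k using Nat.strong_induction_on with
  | _ k ih =>
    intro s
    by_cases hs : s ∈ FF ∧ s ≠ (0, 0)
    · rcases Nat.lt_or_ge k (m0 + 1) with h | h
      · have h1 := Nb_le_k hb1 k s
        have h2 : (k : ℝ) ≤ m0 := by exact_mod_cast (by omega : k ≤ m0)
        have h3 : (0 : ℝ) ≤ m0 := by positivity
        linarith
      · rcases Nat.eq_zero_or_pos m0 with h0 | h0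
        · exfalso
          have := hm0 s hs.1
          rw [h0, q_zero_ne _ _ hs.2] at this
          norm_num at this
        · obtain ⟨k', rfl⟩ : ∃ k', k = m0 + k' := ⟨k - m0, by omega⟩
          rw [Nb_add]
          have h1 := Nb_le_k hb1 m0 s
          have h2 := P_iter_le_q (A := 2 * m0) m0 (Nb bf k') (fun s => ih k' (by omega) s)
            (by rw [Nb_o hbo]) s
          have h3 := hm0 s hs.1
          have h4 : (0 : ℝ) ≤ m0 := by positivity
          nlinarith
    · rcases k with _ | k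
      · simp [Nb]
      · rw [Nb_succ]
        have h1 : bf s = 0 := by unfold bf; rw [if_neg hs]
        have h2 := ih k (by omega) (step s false)
        have h3 := ih k (by omega) (step s true)
        rw [h1]; unfold P; linarith

theorem Vp_drift : ∃ K : ℝ, 0 ≤ K ∧ ∀ s, bl s + P Vp s ≤ Vp s + K * bf s := by
  classical
  obtain ⟨K, hK⟩ : ∃ K : ℝ, ∀ s ∈ FF, bl s + P Vp s ≤ K :=
    (FF_finite.image (fun s => bl s + P Vp s)).bddAbove.imp
      (fun K hK s hs => hK (Set.mem_image_of_mem _ hs))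
  refine ⟨max K 0, le_max_right _ _, ?_⟩
  intro s
  by_cases hF : s ∈ FF
  · by_cases h0 : s = (0, 0)
    · subst h0
      rw [P_o]
      have h1 : bl (0, 0) = 0 := by unfold bl; rw [if_neg (by simp)]
      have h2 : bf (0, 0) = 0 := by unfold bf; rw [if_neg (by simp)]
      rw [h1, h2]; linarith
    · have h2 : bf s = 1 := by unfold bf; rw [if_pos ⟨hF, h0⟩]
      rw [h2]
      have := hK s hF
      have := Vp_nonneg s
      have := le_max_left K 0
      linarith
  · have h2 : bf s = 0 := by unfold bf; rw [if_neg (fun h => hF h.1)]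
    rw [h2, mul_zero, add_zero]
    obtain ⟨i, r⟩ := s
    unfold P
    rcases Nat.eq_zero_or_pos i with rfl | hi
    · have hb : ¬ |r| ≤ 10 ^ 9 := fun h => hF ⟨rfl, h⟩
      have h := Vp_zero hb
      have := bl_le_one (0, r)
      linarith
    · have hbl : bl (i, r) = 0 := by unfold bl; rw [if_neg (fun h => hi.ne' h.1)]
      rw [hbl]
      rcases Int.emod_two_eq_zero_or_one r with hr | hr
      · have h := Vp_even hi hr
        linarith
      · obtain ⟨j, rfl⟩ : ∃ j, i = j + 1 := ⟨i - 1, by omega⟩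
        have h := Vp_odd (j := j) hr
        linarith

/-- the expected number of visits to level `0` before coalescence is at most `pw s + C` -/
theorem Nb_bl_le : ∃ C : ℝ, 0 ≤ C ∧ ∀ (k : ℕ) (s : ℕ × ℤ), Nb bl k s ≤ pw s + C := by
  obtain ⟨A, hA, hAle⟩ := Nb_bf_le
  obtain ⟨K, hK, hKle⟩ := Vp_drift
  refine ⟨K * A + 480048, by positivity, ?_⟩
  have key : ∀ (k : ℕ) (s : ℕ × ℤ), Nb bl k s ≤ Vp s + K * Nb bf k s := by
    intro k
    induction k with
    | zero => intro s; have := Vp_nonneg s; simp only [Nb]; linarith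
    | succ k ih =>
      intro s
      rw [Nb_succ, Nb_succ]
      have h1 := hKle s
      have h2 := ih (step s false)
      have h3 := ih (step s true)
      unfold P at h1 ⊢
      linarith
  intro k s
  have h1 := key k s
  have h2 := Vp_le s
  have h3 := mul_le_mul_of_nonneg_left (hAle k s) hK
  linarith

end Pool.Agent.K6.H38.CT
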