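import Mathlib
import Pool.Agent.K6.H38.CT.A

set_option autoImplicit false

namespace Pool.Agent.K6.H38.CT

open Finset Filter Topology
open Pool.Agent.H499R2.CO

/-! The total expected numbers of visits, and the sharp rate of coalescence. -/

theorem tendsto_of_mono {f : ℕ → ℝ} (h : ∀ k, f k ≤ f (k + 1)) {B : ℝ} (hB : ∀ k, f k ≤ B) :
    Tendsto f atTop (𝓝 (⨆ k, f k)) :=
  tendsto_atTop_ciSup (monotone_nat_of_le_succ h) ⟨B, by rintro _ ⟨k, rfl⟩; exact hB k⟩

/-- total expected number of visits -/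
noncomputable def Ni (β : ℕ × ℤ → ℝ) (s : ℕ × ℤ) : ℝ := ⨆ k, Nb β k s

theorem Nb_bdd {β : ℕ × ℤ → ℝ} (hβ : ∀ s, β s ≤ bl s) (s : ℕ × ℤ) : ∃ B : ℝ, ∀ k, Nb β k s ≤ B := by
  obtain ⟨C, _, hC⟩ := Nb_bl_le
  exact ⟨pw s + C, fun k => (Nb_le_of_le hβ k s).trans (hC k s)⟩

theorem Ni_tendsto {β : ℕ × ℤ → ℝ} (h0 : ∀ s, 0 ≤ β s) (hβ : ∀ s, β s ≤ bl s) (s : ℕ × ℤ) :
    Tendsto (fun k => Nb β k s) atTop (𝓝 (Ni β s)) := by
  obtain ⟨B, hB⟩ := Nb_bdd hβ s
  exact tendsto_of_mono (fun k => Nb_mono h0 k s) hB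

theorem Nb_le_Ni {β : ℕ × ℤ → ℝ} (h0 : ∀ s, 0 ≤ β s) (hβ : ∀ s, β s ≤ bl s) (k : ℕ) (s : ℕ × ℤ) :
    Nb β k s ≤ Ni β s := by
  obtain ⟨B, hB⟩ := Nb_bdd hβ s
  exact le_ciSup (f := fun k => Nb β k s) ⟨B, by rintro _ ⟨k, rfl⟩; exact hB k⟩ k

theorem Ni_nonneg {β : ℕ × ℤ → ℝ} (h0 : ∀ s, 0 ≤ β s) (hβ : ∀ s, β s ≤ bl s) (s : ℕ × ℤ) : 0 ≤ Ni β s :=
  (Nb_nonneg h0 0 s).trans (Nb_le_Ni h0 hβ 0 s)

theorem Ni_mono {β γ : ℕ × ℤ → ℝ} (h0 : ∀ s, 0 ≤ β s) (h : ∀ s, β s ≤ γ s) (hγ : ∀ s, γ s ≤ bl s)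
    (s : ℕ × ℤ) : Ni β s ≤ Ni γ s :=
  le_of_tendsto_of_tendsto' (Ni_tendsto h0 (fun s => (h s).trans (hγ s)) s)
    (Ni_tendsto (fun s => (h0 s).trans (h s)) hγ s) (fun k => Nb_le_of_le h k s)

theorem Ni_P {β : ℕ × ℤ → ℝ} (h0 : ∀ s, 0 ≤ β s) (hβ : ∀ s, β s ≤ bl s) (s : ℕ × ℤ) :
    Ni β s = β s + P (Ni β) s := by
  have h1 := (Ni_tendsto h0 hβ s).comp (tendsto_add_atTop_nat 1)
  have h2 : Tendsto (fun k => β s + P (Nb β k) s) atTop (𝓝 (β s + P (Ni β) s)) := by
    unfold P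
    exact tendsto_const_nhds.add (((Ni_tendsto h0 hβ _).add (Ni_tendsto h0 hβ _)).div_const 2)
  exact tendsto_nhds_unique h1 (h2.congr (fun k => (Nb_succ β k s).symm))

theorem Ni_bl_le : ∃ C : ℝ, 0 ≤ C ∧ ∀ s : ℕ × ℤ, Ni bl s ≤ pw s + C := by
  obtain ⟨C, hC0, hC⟩ := Nb_bl_le
  exact ⟨C, hC0, fun s => ciSup_le (fun k => hC k s)⟩

theorem Ni_iter {β : ℕ × ℤ → ℝ} (h0 : ∀ s, 0 ≤ β s) (hβ : ∀ s, β s ≤ bl s) : ∀ (k : ℕ) (s : ℕ × ℤ),
    Ni β s = Nb β k s + (P^[k] (Ni β)) s := by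
  intro k
  induction k with
  | zero => intro s; simp [Nb]
  | succ k ih =>
    intro s
    rw [Function.iterate_succ_apply', Nb_succ]
    have h := Ni_P h0 hβ s
    have h2 : Ni β = fun s => Nb β k s + (P^[k] (Ni β)) s := funext ih
    rw [h]
    conv_lhs => rw [h2]
    rw [P_add]; ring

/-- the probability of reaching the level `m` within `k` steps -/
noncomputable def AA (m : ℕ) : ℕ → ℕ × ℤ → ℝ
  | 0, s => if s.1 < m then 0 else 1
  | k + 1, s => if s.1 < m then P (AA m k) s else 1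

/-- expected number of visits with odd difference at level `0` before the level `m` -/
noncomputable def NN (m : ℕ) : ℕ → ℕ × ℤ → ℝ
  | 0, _ => 0
  | k + 1, s => if s.1 < m then bz s + P (NN m k) s else 0

noncomputable def LL (m : ℕ) : ℕ → ℕ × ℤ → ℝ
  | 0, s => if s.1 < m then (s.1 : ℝ) else 0
  | k + 1, s => if s.1 < m then P (LL m k) s else 0

theorem step_level (s : ℕ × ℤ) (c : Bool) : (step s c).1 ≤ s.1 + 1 := by
  obtain ⟨i, r⟩ := s
  rcases Int.emod_two_eq_zero_or_one r with hr | hr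
  · cases c
    · rw [step_ef hr]; simp
    · rw [step_et hr]; simp
  · rcases i with _ | j
    · cases c
      · rw [step_0f hr]
      · rw [step_0t hr]
    · cases c
      · rw [step_sf hr]
      · rw [step_st hr]; simp only; omega

theorem AA_nonneg (m : ℕ) : ∀ (k : ℕ) (s : ℕ × ℤ), 0 ≤ AA m k s := by
  intro k
  induction k with
  | zero => intro s; rw [AA]; split_ifs <;> norm_num
  | succ k ih => intro s; rw [AA]; split_ifs; exacts [P_nonneg ih s, by norm_num]

theorem AA_le_one (m : ℕ) : ∀ (k : ℕ) (s : ℕ × ℤ), AA m k s ≤ 1 := by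
  intro k
  induction k with
  | zero => intro s; rw [AA]; split_ifs <;> norm_num
  | succ k ih =>
    intro s; rw [AA]; split_ifs
    · have h1 := ih (step s false)
      have h2 := ih (step s true)
      unfold P; linarith
    · exact le_rfl

theorem AA_mono (m : ℕ) : ∀ (k : ℕ) (s : ℕ × ℤ), AA m k s ≤ AA m (k + 1) s := by
  intro k
  induction k with
  | zero =>
    intro s
    rw [AA, AA]
    split_ifs
    · exact P_nonneg (AA_nonneg m 0) s
    · exact le_rfl
  | succ k ih =>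
    intro s
    rw [AA, AA]
    split_ifs
    · exact P_mono ih s
    · exact le_rfl

theorem AA_id (m : ℕ) : ∀ (k : ℕ) (s : ℕ × ℤ), s.1 ≤ m → m * AA m k s + LL m k s = s.1 + NN m k s := by
  intro k
  induction k with
  | zero =>
    intro s hs
    rw [AA, LL, NN]
    by_cases h : s.1 < m
    · rw [if_pos h, if_pos h]; ring
    · rw [if_neg h, if_neg h]
      have : s.1 = m := by omega
      rw [this]; ring
  | succ k ih =>
    intro s hs
    rw [AA, LL, NN]
    by_cases h : s.1 < m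
    · rw [if_pos h, if_pos h, if_pos h]
      have h1 := ih (step s false) (by have := step_level s false; omega)
      have h2 := ih (step s true) (by have := step_level s true; omega)
      have h3 := P_level s
      unfold P at h3 ⊢
      linarith
    · rw [if_neg h, if_neg h, if_neg h]
      have : s.1 = m := by omega
      rw [this]; ring

theorem LL_nonneg (m : ℕ) : ∀ (k : ℕ) (s : ℕ × ℤ), 0 ≤ LL m k s := by
  intro k
  induction k with
  | zero => intro s; rw [LL]; split_ifs <;> positivity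
  | succ k ih => intro s; rw [LL]; split_ifs; exacts [P_nonneg ih s, le_rfl]

theorem LL_le (m : ℕ) : ∀ (k : ℕ) (s : ℕ × ℤ), LL m k s ≤ m * q step (0, 0) k s := by
  intro k
  induction k with
  | zero =>
    intro s
    rw [LL]
    by_cases h : s = (0, 0)
    · subst h; rw [q_o]; simp
    · rw [q_zero_ne _ _ h, mul_one]
      split_ifs with h1
      · exact_mod_cast h1.le
      · positivity
  | succ k ih =>
    intro s
    rw [LL, q_succ_eq, ← P_const_mul]
    split_ifs with h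
    · exact P_mono ih s
    · apply P_nonneg
      intro s
      exact mul_nonneg (by positivity) (q_nonneg _ _ _ _)

theorem NN_nonneg (m : ℕ) : ∀ (k : ℕ) (s : ℕ × ℤ), 0 ≤ NN m k s := by
  intro k
  induction k with
  | zero => intro s; exact le_rfl
  | succ k ih =>
    intro s; rw [NN]; split_ifs
    · exact add_nonneg (bz_nonneg s) (P_nonneg ih s)
    · exact le_rfl

theorem NN_le (m : ℕ) : ∀ (k : ℕ) (s : ℕ × ℤ), NN m k s ≤ Nb bz k s := by
  intro k
  induction k with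
  | zero => intro s; exact le_rfl
  | succ k ih =>
    intro s; rw [NN, Nb_succ]; split_ifs
    · exact add_le_add le_rfl (P_mono ih s)
    · exact add_nonneg (bz_nonneg s) (P_nonneg (Nb_nonneg bz_nonneg k) s)

theorem NN_mono (m : ℕ) : ∀ (k : ℕ) (s : ℕ × ℤ), NN m k s ≤ NN m (k + 1) s := by
  intro k
  induction k with
  | zero => intro s; exact NN_nonneg m 1 s
  | succ k ih =>
    intro s
    rw [NN, NN]
    split_ifs
    · exact add_le_add le_rfl (P_mono ih s)
    · exact le_rfl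

theorem NN_eq (m : ℕ) : ∀ (k : ℕ) (s : ℕ × ℤ), s.1 + k ≤ m → NN m k s = Nb bz k s := by
  intro k
  induction k with
  | zero => intro s _; rfl
  | succ k ih =>
    intro s hs
    rw [NN, Nb_succ, if_pos (by omega)]
    have h1 := ih (step s false) (by have := step_level s false; omega)
    have h2 := ih (step s true) (by have := step_level s true; omega)
    unfold P
    rw [h1, h2]

/-- the probability of reaching the level `m` -/
noncomputable def Ai (m : ℕ) (s : ℕ × ℤ) : ℝ := ⨆ k, AA m k s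

theorem Ai_tendsto (m : ℕ) (s : ℕ × ℤ) : Tendsto (fun k => AA m k s) atTop (𝓝 (Ai m s)) :=
  tendsto_of_mono (fun k => AA_mono m k s) (fun k => AA_le_one m k s)

theorem Ai_le {m : ℕ} {s : ℕ × ℤ} (hs : s.1 ≤ m) : m * Ai m s ≤ s.1 + Ni bz s := by
  have h1 := (Ai_tendsto m s).const_mul (m : ℝ)
  refine le_of_tendsto' h1 (fun k => ?_)
  have h2 := AA_id m k s hs
  have h3 := LL_nonneg m k s
  have h4 := NN_le m k s
  have h5 := Nb_le_Ni bz_nonneg bz_le k s
  linarith

theorem Ai_ge {m : ℕ} {s : ℕ × ℤ} (k : ℕ) (hk : s.1 + k ≤ m) : s.1 + Nb bz k s ≤ m * Ai m s := by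
  have h1 := (Ai_tendsto m s).const_mul (m : ℝ)
  have h2 := ((q_lim s).const_mul (m : ℝ))
  rw [mul_zero] at h2
  have h3 := h1.add h2
  rw [add_zero] at h3
  refine ge_of_tendsto h3 ?_
  filter_upwards [eventually_ge_atTop k] with j hj
  have h4 := AA_id m j s (by omega)
  have h5 := LL_le m j s
  have h6 := NN_eq m k s hk
  have h7 : NN m k s ≤ NN m j s := monotone_nat_of_le_succ (fun n => NN_mono m n s) hj
  linarith

/-- the law of the highest level -/
theorem Ai_lim (s : ℕ × ℤ) : Tendsto (fun m : ℕ => m * Ai m s) atTop (𝓝 (s.1 + Ni bz s)) := by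
  have hlim := (Ni_tendsto bz_nonneg bz_le s).const_add (s.1 : ℝ)
  rw [Metric.tendsto_atTop]
  intro ε hε
  obtain ⟨k, hk⟩ := (Metric.tendsto_atTop.1 hlim) ε hε
  refine ⟨s.1 + k, fun m hm => ?_⟩
  have h1 := Ai_le (m := m) (s := s) (by omega)
  have h2 := Ai_ge (m := m) (s := s) k hm
  have h3 := hk k le_rfl
  rw [Real.dist_eq, abs_lt] at h3 ⊢
  constructor <;> linarith

end Pool.Agent.K6.H38.CT
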