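import Mathlib
import Pool.Agent.K6.H38.CT.B

set_option autoImplicit false

namespace Pool.Agent.K6.H38.CT

open Finset Filter Topology
open Pool.Agent.H499R2.CO

/-! The sharp rate of coalescence. -/

theorem bl_le_self (s : ℕ × ℤ) : bl s ≤ bl s := le_rfl

theorem f_le2 (M i : ℕ) : f M i ≤ 2 * i * D M := by
  have h2 : (0 : ℝ) ≤ D M := by positivity
  have h1 : ∀ m ∈ range i, 2 * max ((D M : ℝ) - D m) 0 ≤ 2 * D M := by
    intro m _
    have h1 : (0 : ℝ) ≤ D m := by positivity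
    have : max ((D M : ℝ) - D m) 0 ≤ D M := max_le (by linarith) h2
    linarith
  unfold f
  refine (sum_le_card_nsmul _ _ _ h1).trans (le_of_eq ?_)
  rw [card_range, nsmul_eq_mul]; ring

/-- potential for the time spent below the level `M` before coalescence -/
noncomputable def Wt (M : ℕ) (s : ℕ × ℤ) : ℝ := f M s.1 + 2 * H s.1 s.2 + (2 * D M + 5) * Ni bl s

theorem Wt_nonneg (M : ℕ) (s : ℕ × ℤ) : 0 ≤ Wt M s := by
  unfold Wt
  have h1 := f_nonneg M s.1
  have h2 := Ni_nonneg bl_nonneg bl_le_self s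
  positivity

theorem Wt_drift {M : ℕ} {s : ℕ × ℤ} (hs : s ≠ (0, 0)) (hM : s.1 < M) : P (Wt M) s ≤ Wt M s - 1 := by
  have hN := Ni_P bl_nonneg bl_le_self s
  obtain ⟨i, r⟩ := s
  simp only at hM
  unfold P at hN ⊢
  have hD : (0 : ℝ) ≤ D M := by positivity
  rcases Nat.eq_zero_or_pos i with rfl | hi
  · have hr0 : r ≠ 0 := fun h => hs (by rw [h])
    have hb : bl (0, r) = 1 := by unfold bl; rw [if_pos ⟨rfl, hr0⟩]
    rw [hb] at hN
    have hf0 : f M 0 = 0 := by simp [f]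
    have hf1 := f_one M
    rcases Int.emod_two_eq_zero_or_one r with hr | hr
    · rw [step_ef hr, step_et hr] at hN ⊢
      simp only [Wt, H, hf0, if_true]
      push_cast
      rw [hN]
      nlinarith
    · rw [step_0f hr, step_0t hr] at hN ⊢
      have v1 : v 1 = 1 := by simp [v]
      have H1 : (H 1 ((3 * r + 1) / 2) : ℝ) ≤ 2 := by
        have := H_le_v 1 ((3 * r + 1) / 2)
        rw [v1] at this
        exact_mod_cast this
      have H2 : (H 1 ((1 - 3 * r) / 2) : ℝ) ≤ 2 := by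
        have := H_le_v 1 ((1 - 3 * r) / 2)
        rw [v1] at this
        exact_mod_cast this
      have H0 : (0 : ℝ) ≤ H 0 r := by positivity
      simp only [Wt, hf0]
      rw [hN]
      nlinarith
  · have hb : bl (i, r) = 0 := by unfold bl; rw [if_neg (fun h => hi.ne' h.1)]
    rw [hb, zero_add] at hN
    rcases Int.emod_two_eq_zero_or_one r with hr | hr
    · have h3 := H_even hi hr
      have h3' : (H i (r / 2) : ℝ) + H i ((3 * r + 1 - 3 ^ i) / 2) + 2 ≤ 2 * H i r := by exact_mod_cast h3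
      rw [step_ef hr, step_et hr] at hN ⊢
      simp only [Wt]
      rw [hN]
      nlinarith
    · obtain ⟨j, rfl⟩ : ∃ j, i = j + 1 := ⟨i - 1, by omega⟩
      have hf := f_second (M := M) (j := j) (by omega)
      have H1 : (H (j + 2) ((3 * r + 1) / 2) : ℝ) ≤ v (j + 2) + 1 := by
        exact_mod_cast H_le_v (j + 2) ((3 * r + 1) / 2)
      have H2 : (H j ((r - 3 ^ j) / 2) : ℝ) ≤ v j + 1 := by exact_mod_cast H_le_v j ((r - 3 ^ j) / 2)
      have H0 : (0 : ℝ) ≤ H (j + 1) r := by positivity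
      have hc : (c (j + 1) : ℝ) = v (j + 2) + v j + 4 := by
        unfold c
        rw [show j + 1 + 1 = j + 2 from rfl, show j + 1 - 1 = j from rfl]
        push_cast; ring
      rw [step_sf hr, step_st hr] at hN ⊢
      simp only [Wt]
      rw [hN]
      nlinarith

open Classical in
/-- The probability of staying below the level `M` without coalescing up to time `k`. -/
noncomputable def sm (M : ℕ) : ℕ → ℕ × ℤ → ℝ
  | 0, s => if s ≠ (0, 0) ∧ s.1 < M then 1 else 0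
  | t + 1, s => if s ≠ (0, 0) ∧ s.1 < M then P (sm M t) s else 0

theorem sm_zero_alive {M : ℕ} {s : ℕ × ℤ} (h : s ≠ (0, 0) ∧ s.1 < M) : sm M 0 s = 1 := by
  rw [sm, if_pos h]

theorem sm_succ_alive {M t : ℕ} {s : ℕ × ℤ} (h : s ≠ (0, 0) ∧ s.1 < M) : sm M (t + 1) s = P (sm M t) s := by
  rw [sm, if_pos h]

theorem sm_dead {M t : ℕ} {s : ℕ × ℤ} (h : ¬ (s ≠ (0, 0) ∧ s.1 < M)) : sm M t s = 0 := by
  rcases t with _ | t
  · rw [sm, if_neg h]
  · rw [sm, if_neg h]

theorem sm_nonneg (M : ℕ) : ∀ (t : ℕ) (s : ℕ × ℤ), 0 ≤ sm M t s := by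
  intro t
  induction t with
  | zero => intro s; rw [sm]; split_ifs <;> norm_num
  | succ t ih =>
    intro s
    by_cases h : s ≠ (0, 0) ∧ s.1 < M
    · rw [sm_succ_alive h]; exact P_nonneg ih s
    · rw [sm_dead h]

theorem sm_le_one (M : ℕ) : ∀ (t : ℕ) (s : ℕ × ℤ), sm M t s ≤ 1 := by
  intro t
  induction t with
  | zero => intro s; rw [sm]; split_ifs <;> norm_num
  | succ t ih =>
    intro s
    by_cases h : s ≠ (0, 0) ∧ s.1 < M
    · rw [sm_succ_alive h]; unfold P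
      have := ih (step s false); have := ih (step s true); linarith
    · rw [sm_dead h]; norm_num

theorem sm_le_W (M : ℕ) : ∀ (t : ℕ) (s : ℕ × ℤ), sm M t s ≤ Wt M s / (t + 1) := by
  have hUt : ∀ (t : ℕ) (s : ℕ × ℤ), 0 ≤ Wt M s / ((t : ℝ) + 1) := fun t s =>
    div_nonneg (Wt_nonneg M s) (by positivity)
  intro t
  induction t with
  | zero =>
    intro s
    by_cases h : s ≠ (0, 0) ∧ s.1 < M
    · rw [sm_zero_alive h]
      have h4 := Wt_drift h.1 h.2
      have h5 : 0 ≤ P (Wt M) s := P_nonneg (Wt_nonneg M) s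
      push_cast
      rw [zero_add, div_one]; linarith
    · rw [sm_dead h]; exact hUt 0 s
  | succ t ih =>
    intro s
    by_cases h : s ≠ (0, 0) ∧ s.1 < M
    · by_cases hU : Wt M s ≤ (t : ℝ) + 2
      · rw [sm_succ_alive h]
        have e1 := ih (step s false)
        have e2 := ih (step s true)
        have e4 := Wt_drift h.1 h.2
        unfold P at e4 ⊢
        have e6 : (Wt M (step s false) / ((t : ℝ) + 1) + Wt M (step s true) / ((t : ℝ) + 1)) / 2 ≤
            (Wt M s - 1) / ((t : ℝ) + 1) := by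
          rw [← add_div, div_div, mul_comm ((t : ℝ) + 1) 2, ← div_div]
          exact div_le_div_of_nonneg_right e4 (by positivity)
        have e7 : (Wt M s - 1) / ((t : ℝ) + 1) ≤ Wt M s / (((t + 1 : ℕ) : ℝ) + 1) := by
          push_cast
          rw [div_le_div_iff₀ (by positivity) (by positivity)]
          have : (0 : ℝ) ≤ t := by positivity
          nlinarith
        linarith
      · push Not at hU
        have e7 : (1 : ℝ) ≤ Wt M s / (((t + 1 : ℕ) : ℝ) + 1) := by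
          push_cast
          rw [le_div_iff₀ (by positivity)]
          linarith
        exact (sm_le_one M _ s).trans e7
    · rw [sm_dead h]; exact hUt _ s

theorem q_le_AA_sm (M : ℕ) : ∀ (k : ℕ) (s : ℕ × ℤ), q step (0, 0) k s ≤ AA M k s + sm M k s := by
  intro k
  induction k with
  | zero =>
    intro s
    by_cases h0 : s = (0, 0)
    · subst h0; rw [q_o]; exact add_nonneg (AA_nonneg _ _ _) (sm_nonneg _ _ _)
    · rw [q_zero_ne _ _ h0]
      by_cases hM : s.1 < M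
      · rw [sm_zero_alive ⟨h0, hM⟩]; have := AA_nonneg M 0 s; linarith
      · rw [AA, if_neg hM]; have := sm_nonneg M 0 s; linarith
  | succ k ih =>
    intro s
    by_cases h0 : s = (0, 0)
    · subst h0; rw [q_o]; exact add_nonneg (AA_nonneg _ _ _) (sm_nonneg _ _ _)
    · by_cases hM : s.1 < M
      · rw [sm_succ_alive ⟨h0, hM⟩, AA, if_pos hM, q_succ_eq, ← P_add]
        exact P_mono ih s
      · rw [AA, if_neg hM]
        have h1 := sm_nonneg M (k + 1) s
        have h2 := q_le_one step ((0 : ℕ), (0 : ℤ)) (k + 1) s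
        linarith

theorem AA_le {M : ℕ} (hM : 1 ≤ M) (k : ℕ) (s : ℕ × ℤ) : AA M k s ≤ (s.1 + Ni bz s) / M := by
  have hMr : (0 : ℝ) < M := by exact_mod_cast hM
  rw [le_div_iff₀ hMr]
  have hN := Ni_nonneg bz_nonneg bz_le s
  rcases Nat.lt_or_ge M s.1 with h | h
  · have h1 := AA_le_one M k s
    have h2 : (M : ℝ) ≤ s.1 := by exact_mod_cast h.le
    nlinarith
  · have h1 : AA M k s ≤ Ai M s :=
      le_ciSup (f := fun k => AA M k s) ⟨1, by rintro _ ⟨k, rfl⟩; exact AA_le_one M k s⟩ k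
    have h2 := Ai_le h
    nlinarith

/-- the linear bound -/
theorem q_lin : ∃ C : ℝ, 0 < C ∧ ∀ (k : ℕ), 1 ≤ k → ∀ s : ℕ × ℤ,
    q step (0, 0) k s ≤ C / √ k * (1 + s.1 + pw s) := by
  obtain ⟨C0, hC0, hN⟩ := Ni_bl_le
  refine ⟨200 * (C0 + 1), by positivity, fun k hk s => ?_⟩
  have hkr : (1 : ℝ) ≤ k := by exact_mod_cast hk
  have hsk : 1 ≤ √ (k : ℝ) := Real.one_le_sqrt.2 hkr
  have hsk0 : 0 < √ (k : ℝ) := by linarith
  set M : ℕ := ⌊√ (k : ℝ)⌋₊ with hMdef
  have hM1 : 1 ≤ M := by rw [hMdef, Nat.one_le_floor_iff]; exact hsk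
  have hMr : (1 : ℝ) ≤ M := by exact_mod_cast hM1
  have hM2 : (M : ℝ) ≤ √ (k : ℝ) := Nat.floor_le (by positivity)
  have hM3 : √ (k : ℝ) < M + 1 := Nat.lt_floor_add_one _
  have hM4 : √ (k : ℝ) ≤ 2 * M := by linarith
  have hsq : √ (k : ℝ) * √ (k : ℝ) = k := Real.mul_self_sqrt (by positivity)
  have hw := pw_nonneg s
  have hNi := hN s
  have hNz : Ni bz s ≤ Ni bl s := Ni_mono bz_nonneg bz_le bl_le_self s
  have hNl0 := Ni_nonneg bl_nonneg bl_le_self s
  have hi0 : (0 : ℝ) ≤ s.1 := by positivity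
  have h1 := q_le_AA_sm M k s
  have h2 := AA_le hM1 k s
  have h3 := sm_le_W M k s
  have hX : 0 ≤ 1 + (s.1 : ℝ) + pw s := by positivity
  -- first part
  have h4 : ((s.1 : ℝ) + Ni bz s) / M ≤ 2 * (C0 + 1) / √ k * (1 + s.1 + pw s) := by
    rw [div_mul_eq_mul_div, div_le_div_iff₀ (by linarith) hsk0]
    have e1 : (s.1 : ℝ) + Ni bz s ≤ (C0 + 1) * (1 + s.1 + pw s) := by nlinarith
    have e2 : 0 ≤ (s.1 : ℝ) + Ni bz s := by
      have := Ni_nonneg bz_nonneg bz_le s
      linarith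
    calc ((s.1 : ℝ) + Ni bz s) * √ k ≤ ((C0 + 1) * (1 + s.1 + pw s)) * (2 * M) :=
          mul_le_mul e1 hM4 hsk0.le (by positivity)
      _ = 2 * (C0 + 1) * (1 + s.1 + pw s) * M := by ring
  have hW : Wt M s ≤ 100 * (C0 + 1) * (1 + s.1 + pw s) * M := by
    have hD : (D M : ℝ) ≤ 10 * (M + 1) := by exact_mod_cast D_le M
    have hD2 : (D M : ℝ) ≤ 20 * M := by linarith
    have hf := f_le2 M s.1
    have hH : (H s.1 s.2 : ℝ) ≤ 2 * s.1 + 1 := by exact_mod_cast H_le s.1 s.2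
    have e1 : 2 * (s.1 : ℝ) * D M ≤ 40 * s.1 * M := by nlinarith
    have e2 : (2 * (D M : ℝ) + 5) * Ni bl s ≤ 45 * M * (pw s + C0) :=
      mul_le_mul (by linarith) hNi hNl0 (by positivity)
    have e3 : 2 * (2 * (s.1 : ℝ) + 1) ≤ 4 * s.1 * M + 2 * M := by nlinarith
    have e4 : 45 * (M : ℝ) * (pw s + C0) ≤ 45 * (C0 + 1) * (1 + pw s) * M := by
      have : pw s + C0 ≤ (C0 + 1) * (1 + pw s) := by nlinarith
      nlinarith
    have e5 : 0 ≤ (C0 : ℝ) * s.1 * M := by positivity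
    have e6 : 0 ≤ (C0 : ℝ) * M := by positivity
    have e7 : 0 ≤ (C0 : ℝ) * pw s * M := by positivity
    have e8 : 0 ≤ pw s * M := by positivity
    have e9 : 0 ≤ (s.1 : ℝ) * M := by positivity
    unfold Wt
    nlinarith
  have h5 : Wt M s / (k + 1) ≤ 100 * (C0 + 1) / √ k * (1 + s.1 + pw s) := by
    rw [div_mul_eq_mul_div, div_le_div_iff₀ (by linarith) hsk0]
    have e1 : (M : ℝ) * √ k ≤ k := by nlinarith
    calc Wt M s * √ k ≤ (100 * (C0 + 1) * (1 + s.1 + pw s) * M) * √ k :=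
          mul_le_mul_of_nonneg_right hW hsk0.le
      _ = (100 * (C0 + 1) * (1 + s.1 + pw s)) * (M * √ k) := by ring
      _ ≤ (100 * (C0 + 1) * (1 + s.1 + pw s)) * (k + 1) := by
          apply mul_le_mul_of_nonneg_left (by linarith) (by positivity)
  have h6 : 200 * (C0 + 1) / √ k * (1 + s.1 + pw s) =
      2 * (C0 + 1) / √ k * (1 + s.1 + pw s) + 100 * (C0 + 1) / √ k * (1 + s.1 + pw s)
        + 98 * (C0 + 1) / √ k * (1 + s.1 + pw s) := by ring
  have h7 : 0 ≤ 98 * (C0 + 1) / √ k * (1 + s.1 + pw s) := by positivity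
  linarith

theorem pw_run {u i : ℕ} {r : ℤ} (hr : |(r : ℝ)| ≤ 4 ^ u) : 0.98 ^ (35 * u) * pw (i, r) ≤ 1 := by
  have h7 : w r ≤ 2 ^ u := by
    unfold w
    rw [Real.sqrt_le_left (by positivity)]
    calc |(r : ℝ)| ≤ 4 ^ u := hr
      _ = (2 ^ u) ^ 2 := by rw [← pow_mul, mul_comm, pow_mul]; norm_num
  have h8 : (0.98 : ℝ) ^ (35 * u) ≤ (1 / 2) ^ u := by
    rw [pow_mul]
    exact pow_le_pow_left₀ (by positivity) pow_098 u
  have h9 : pw (i, r) ≤ w r := by
    unfold pw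
    have : (11 / 20 : ℝ) ^ i ≤ 1 := pow_le_one₀ (by norm_num) (by norm_num)
    calc (11 / 20 : ℝ) ^ i * w r ≤ 1 * w r := mul_le_mul_of_nonneg_right this (w_nonneg r)
      _ = w r := one_mul _
  calc 0.98 ^ (35 * u) * pw (i, r) ≤ (1 / 2) ^ u * 2 ^ u :=
        mul_le_mul h8 (h9.trans h7) (pw_nonneg _) (by positivity)
    _ = 1 := by rw [← mul_pow]; norm_num

/-- THE SHARP RATE OF COALESCENCE. -/
theorem q_sharp : ∃ C : ℝ, 0 < C ∧ ∀ (k : ℕ), 1 ≤ k → ∀ (i u : ℕ) (r : ℤ), |(r : ℝ)| ≤ 4 ^ u →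
    q step (0, 0) k (i, r) ≤ C * √ (1 + (i : ℝ) ^ 2 + u) / √ k := by
  obtain ⟨C, hC, hlin⟩ := q_lin
  refine ⟨200 * C + 20, by positivity, fun k hk i u r hr => ?_⟩
  have hkr : (1 : ℝ) ≤ k := by exact_mod_cast hk
  have hsk0 : 0 < √ (k : ℝ) := Real.sqrt_pos.2 (by linarith)
  set L : ℝ := 1 + (i : ℝ) ^ 2 + u with hL
  have hL1 : 1 ≤ L := by rw [hL]; have : (0 : ℝ) ≤ (i : ℝ) ^ 2 + u := by positivity
                         linarith
  have hsL : 1 ≤ √ L := Real.one_le_sqrt.2 hL1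
  by_cases hbig : 70 * u < k
  · set k1 : ℕ := 35 * u with hk1
    obtain ⟨k2, hk2⟩ : ∃ k2, k = k1 + k2 := ⟨k - k1, by omega⟩
    have hk2' : k ≤ 2 * k2 := by omega
    have hk21 : 1 ≤ k2 := by omega
    have h1 := q_add_le k2 k1 (i, r)
    rw [← hk2] at h1
    have h2 : ∀ s : ℕ × ℤ, q step (0, 0) k2 s ≤ C / √ k2 + C / √ k2 * (s.1 : ℝ) + C / √ k2 * pw s := by
      intro s
      refine (hlin k2 hk21 s).trans (le_of_eq (by ring))
    have h3 := P_iter_mono k1 h2 (i, r)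
    have hA0 : (0 : ℝ) < 6 * √ L := by positivity
    have hkA : (((i, r) : ℕ × ℤ).1 : ℝ) ^ 2 + k1 ≤ (6 * √ L) ^ 2 := by
      rw [mul_pow, Real.sq_sqrt (by linarith), hk1]
      push_cast
      rw [hL]
      have hu0 : (0 : ℝ) ≤ u := by positivity
      have hi0 : (0 : ℝ) ≤ (i : ℝ) ^ 2 := by positivity
      linarith
    have hc0 : 0 ≤ C / √ (k2 : ℝ) := by positivity
    have h4 := P_iter_lin2 hc0 hc0 hA0 (C / √ k2) k1 (i, r) hkA
    have h5 := pw_run (i := i) hr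
    have h6 : C / √ (k2 : ℝ) * (0.98 ^ k1 * pw (i, r) + 37.5) ≤ C / √ k2 * 38.5 := by
      apply mul_le_mul_of_nonneg_left _ hc0
      rw [hk1]; linarith
    have h7 : q step (0, 0) k (i, r) ≤ C / √ k2 * (46 * √ L) := by
      have e : C / √ (k2 : ℝ) + C / √ k2 * (6 * √ L) + C / √ k2 * 38.5 ≤ C / √ k2 * (46 * √ L) := by
        have : 1 + 6 * √ L + 38.5 ≤ 46 * √ L := by linarith
        have := mul_le_mul_of_nonneg_left this hc0
        linarith
      linarith
    have h8 : C / √ (k2 : ℝ) ≤ 2 * C / √ k := by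
      have hk2r : (0 : ℝ) < √ (k2 : ℝ) := Real.sqrt_pos.2 (by exact_mod_cast hk21)
      rw [div_le_div_iff₀ hk2r hsk0]
      have e1 : √ (k : ℝ) ≤ 2 * √ k2 := by
        rw [Real.sqrt_le_left (by positivity), mul_pow, Real.sq_sqrt (by positivity)]
        have : (k : ℝ) ≤ 2 * k2 := by exact_mod_cast hk2'
        linarith
      nlinarith
    calc q step (0, 0) k (i, r) ≤ C / √ k2 * (46 * √ L) := h7
      _ ≤ 2 * C / √ k * (46 * √ L) := mul_le_mul_of_nonneg_right h8 (by positivity)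
      _ = (92 * C) * √ L / √ k := by ring
      _ ≤ (200 * C + 20) * √ L / √ k := by
          apply div_le_div_of_nonneg_right _ hsk0.le
          apply mul_le_mul_of_nonneg_right _ (by positivity)
          linarith
  · push Not at hbig
    have h1 := q_le_one step ((0 : ℕ), (0 : ℤ)) k (i, r)
    rw [le_div_iff₀ hsk0]
    have h2 : √ (k : ℝ) ≤ 20 * √ L := by
      rw [Real.sqrt_le_left (by positivity), mul_pow, Real.sq_sqrt (by linarith)]
      have h3 : (k : ℝ) ≤ 70 * u := by exact_mod_cast hbig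
      have h4 : (u : ℝ) ≤ L := by rw [hL]; have : (0 : ℝ) ≤ (i : ℝ) ^ 2 := by positivity
                                  linarith
      linarith
    have h3 : q step (0, 0) k (i, r) * √ k ≤ 1 * √ k := mul_le_mul_of_nonneg_right h1 hsk0.le
    have h4 : 0 ≤ C * √ L := by positivity
    nlinarith

/-- bound for the expected number of visits -/
theorem Ni_sharp : ∃ C : ℝ, 0 < C ∧ ∀ (i u : ℕ) (r : ℤ), |(r : ℝ)| ≤ 4 ^ u →
    Ni bz (i, r) ≤ C * √ (1 + (i : ℝ) ^ 2 + u) := by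
  obtain ⟨C, hC, hle⟩ := Ni_bl_le
  refine ⟨C + 50, by positivity, fun i u r hr => ?_⟩
  set L : ℝ := 1 + (i : ℝ) ^ 2 + u with hL
  have hL1 : 1 ≤ L := by rw [hL]; have : (0 : ℝ) ≤ (i : ℝ) ^ 2 + u := by positivity
                         linarith
  have hsL : 1 ≤ √ L := Real.one_le_sqrt.2 hL1
  set k1 : ℕ := 35 * u with hk1
  have h1 := Ni_iter bz_nonneg bz_le k1 (i, r)
  have h2 : Nb bz k1 (i, r) ≤ (P^[k1] (fun s => (s.1 : ℝ))) (i, r) := by
    rw [level_iter]
    have : (0 : ℝ) ≤ (i : ℝ) := by positivity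
    simp only; linarith
  have hA0 : (0 : ℝ) < 6 * √ L := by positivity
  have hkA : (((i, r) : ℕ × ℤ).1 : ℝ) ^ 2 + k1 ≤ (6 * √ L) ^ 2 := by
    rw [mul_pow, Real.sq_sqrt (by linarith), hk1]
    push_cast
    rw [hL]
    have hu0 : (0 : ℝ) ≤ u := by positivity
    have hi0 : (0 : ℝ) ≤ (i : ℝ) ^ 2 := by positivity
    linarith
  have h3 := P_iter_lin2 (b := 1) (c := 0) (by norm_num) le_rfl hA0 0 k1 (i, r) hkA
  have h4 := P_iter_lin2 (b := 0) (c := 1) le_rfl (by norm_num) hA0 C k1 (i, r) hkA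
  have h5 : (P^[k1] (Ni bz)) (i, r) ≤ (P^[k1] (fun s => C + 0 * (s.1 : ℝ) + 1 * pw s)) (i, r) := by
    apply P_iter_mono
    intro s
    have e1 := hle s
    have e2 : Ni bz s ≤ Ni bl s := Ni_mono bz_nonneg bz_le bl_le_self s
    linarith
  have h6 : (P^[k1] (fun s => (s.1 : ℝ))) (i, r) ≤ (P^[k1] (fun s => 0 + 1 * (s.1 : ℝ) + 0 * pw s)) (i, r) := by
    apply P_iter_mono
    intro s
    linarith
  have h7 := pw_run (i := i) hr
  rw [← hk1] at h7
  nlinarith

theorem Ni_ge_aux : ∀ (a : ℕ) (r : ℤ), r ≠ 0 → (2 : ℤ) ^ a ∣ r → ¬ (2 : ℤ) ^ (a + 1) ∣ r →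
    1 ≤ Ni bz (0, r) := by
  intro a
  induction a with
  | zero =>
    intro r hr _ h2
    have hodd : r % 2 = 1 := by
      rw [zero_add, pow_one] at h2
      omega
    rw [Ni_P bz_nonneg bz_le]
    have h1 : bz (0, r) = 1 := by unfold bz; rw [if_pos ⟨rfl, hodd⟩]
    have h2 : 0 ≤ P (Ni bz) (0, r) := P_nonneg (Ni_nonneg bz_nonneg bz_le) _
    rw [h1]; linarith
  | succ a ih =>
    intro r hr h1 h2
    have heven : r % 2 = 0 := by
      have : (2 : ℤ) ∣ r := (Dvd.intro_left _ (pow_succ (2 : ℤ) a).symm).trans h1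
      omega
    obtain ⟨b, hb⟩ : ∃ b, r = 2 * b := ⟨r / 2, by omega⟩
    have hb0 : b ≠ 0 := by rintro rfl; exact hr (by rw [hb]; norm_num)
    have k1 : (2 : ℤ) ^ a ∣ b := by
      rw [hb, pow_succ, mul_comm] at h1
      exact (mul_dvd_mul_iff_left (by norm_num)).1 h1
    have k2 : ¬ (2 : ℤ) ^ (a + 1) ∣ b := by
      intro h
      apply h2
      rw [hb, pow_succ, mul_comm]
      exact mul_dvd_mul_left 2 h
    have k3 : (2 : ℤ) ^ a ∣ 3 * b := k1.mul_left 3
    have k4 : ¬ (2 : ℤ) ^ (a + 1) ∣ 3 * b := by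
      intro h
      apply k2
      have hc : IsCoprime ((2 : ℤ) ^ (a + 1)) 3 := IsCoprime.pow_left (by norm_num)
      exact hc.dvd_of_dvd_mul_left h
    have e1 : r / 2 = b := by omega
    have e2 : (3 * r + 1 - 3 ^ 0) / 2 = 3 * b := by rw [pow_zero]; omega
    have i1 := ih b hb0 k1 k2
    have i2 := ih (3 * b) (by omega) k3 k4
    rw [Ni_P bz_nonneg bz_le]
    have h3 := bz_nonneg (0, r)
    unfold P
    rw [step_ef heven, step_et heven, e1, e2]
    linarith

/-- different integers are seen at level `0` with different parities -/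
theorem Ni_ge_one {r : ℤ} (hr : r ≠ 0) : 1 ≤ Ni bz (0, r) := by
  have hfin : FiniteMultiplicity (2 : ℤ) r :=
    Int.finiteMultiplicity_iff.2 ⟨by norm_num, hr⟩
  exact Ni_ge_aux (multiplicity (2 : ℤ) r) r hr (pow_multiplicity_dvd 2 r)
    (hfin.not_pow_dvd_of_multiplicity_lt (Nat.lt_succ_self _))

end Pool.Agent.K6.H38.CT
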