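import Mathlib

set_option autoImplicit false

namespace Pool.Agent.K6.H38.CT

open Finset Filter Topology

/-! Simple random walk: the probability of not hitting `0`, and a Tauberian lemma. -/

/-- probability that the simple random walk from `i` does not hit `0` within `n` steps -/
noncomputable def aw : ℕ → ℕ → ℝ
  | 0, i => if i = 0 then 0 else 1
  | _ + 1, 0 => 0
  | n + 1, i + 1 => (aw n i + aw n (i + 2)) / 2

/-- tail of the law of the length of the excursions from `0` -/
noncomputable def al : ℕ → ℝ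
  | 0 => 1
  | n + 1 => aw n 1

theorem aw_nonneg : ∀ (n i : ℕ), 0 ≤ aw n i := by
  intro n
  induction n with
  | zero => intro i; rw [aw]; split_ifs <;> norm_num
  | succ n ih =>
    intro i
    rcases i with _ | i
    · rw [aw]
    · rw [aw]; have := ih i; have := ih (i + 2); linarith

theorem aw_le_one : ∀ (n i : ℕ), aw n i ≤ 1 := by
  intro n
  induction n with
  | zero => intro i; rw [aw]; split_ifs <;> norm_num
  | succ n ih =>
    intro i
    rcases i with _ | i
    · rw [aw]; norm_num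
    · rw [aw]; have := ih i; have := ih (i + 2); linarith

theorem aw_zero (n : ℕ) : aw n 0 = 0 := by
  rcases n with _ | n
  · rw [aw, if_pos rfl]
  · rw [aw]

theorem aw_anti : ∀ (n i : ℕ), aw (n + 1) i ≤ aw n i := by
  intro n
  induction n with
  | zero =>
    intro i
    rcases i with _ | i
    · rw [aw_zero, aw_zero]
    · rw [aw, aw, if_neg (by omega)]
      have := aw_le_one 0 i; have := aw_le_one 0 (i + 2); linarith
  | succ n ih =>
    intro i
    rcases i with _ | i
    · rw [aw_zero, aw_zero]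
    · rw [show aw (n + 1 + 1) (i + 1) = (aw (n + 1) i + aw (n + 1) (i + 2)) / 2 from rfl,
        show aw (n + 1) (i + 1) = (aw n i + aw n (i + 2)) / 2 from rfl]
      have := ih i; have := ih (i + 2); linarith

theorem al_nonneg (n : ℕ) : 0 ≤ al n := by
  rcases n with _ | n
  · rw [al]; norm_num
  · rw [al]; exact aw_nonneg _ _

theorem al_anti : Antitone al := by
  apply antitone_nat_of_succ_le
  intro n
  rcases n with _ | n
  · rw [al, al]; exact aw_le_one _ _
  · rw [al, al]; exact aw_anti _ _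

/-- cumulative distribution function of the simple random walk -/
noncomputable def ph : ℕ → ℤ → ℝ
  | 0, x => if 0 ≤ x then 1 else 0
  | n + 1, x => (ph n (x - 1) + ph n (x + 1)) / 2

theorem aw_ph : ∀ (n i : ℕ), aw n i = ph n i - ph n (-i) := by
  intro n
  induction n with
  | zero =>
    intro i
    rw [aw, ph, ph]
    rcases Nat.eq_zero_or_pos i with rfl | hi
    · simp
    · rw [if_neg hi.ne', if_pos (by positivity), if_neg (by omega)]; norm_num
  | succ n ih =>
    intro i
    rcases i with _ | i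
    · rw [aw_zero]; simp
    · rw [aw, ph, ph, ih, ih]
      have e1 : (((i + 1 : ℕ) : ℤ) - 1) = (i : ℤ) := by push_cast; ring
      have e2 : (((i + 1 : ℕ) : ℤ) + 1) = ((i + 2 : ℕ) : ℤ) := by push_cast; ring
      have e3 : (-((i + 1 : ℕ) : ℤ) - 1) = -((i + 2 : ℕ) : ℤ) := by push_cast; ring
      have e4 : (-((i + 1 : ℕ) : ℤ) + 1) = -(i : ℤ) := by push_cast; ring
      rw [e1, e2, e3, e4]; ring

/-- the law of the simple random walk -/
noncomputable def ul (n : ℕ) (x : ℤ) : ℝ := ph n x - ph n (x - 1)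

theorem ul_succ (n : ℕ) (x : ℤ) : ul (n + 1) x = (ul n (x - 1) + ul n (x + 1)) / 2 := by
  unfold ul
  rw [ph, ph]
  have e : x - 1 + 1 = x := by ring
  have e2 : x + 1 - 1 = x := by ring
  rw [e, e2]; ring

theorem ul_zero (x : ℤ) : ul 0 x = if x = 0 then 1 else 0 := by
  unfold ul
  rw [ph, ph]
  by_cases h : x = 0
  · subst h; norm_num
  · rw [if_neg h]
    by_cases h2 : 0 ≤ x
    · rw [if_pos h2, if_pos (by omega)]; norm_num
    · rw [if_neg h2, if_neg (by omega)]; norm_num

theorem ul_out : ∀ (n : ℕ) (x : ℤ), x < -n → ul n x = 0 := by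
  intro n
  induction n with
  | zero => intro x hx; rw [ul_zero, if_neg (by intro h; subst h; simp at hx)]
  | succ n ih =>
    intro x hx
    push_cast at hx
    rw [ul_succ, ih _ (by omega), ih _ (by omega)]; norm_num

theorem ul_par : ∀ (n : ℕ) (x : ℤ), (n + x) % 2 = 1 → ul n x = 0 := by
  intro n
  induction n with
  | zero => intro x hx; rw [ul_zero, if_neg (by intro h; subst h; simp at hx)]
  | succ n ih =>
    intro x hx
    push_cast at hx
    rw [ul_succ, ih _ (by omega), ih _ (by omega)]; norm_num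

theorem ul_choose : ∀ (n k : ℕ), ul n (2 * k - n) = n.choose k / 2 ^ n := by
  intro n
  induction n with
  | zero =>
    intro k
    rw [ul_zero]
    rcases Nat.eq_zero_or_pos k with rfl | hk
    · simp
    · rw [if_neg (by push_cast; omega), Nat.choose_eq_zero_of_lt hk]; simp
  | succ n ih =>
    intro k
    rw [ul_succ]
    rcases k with _ | k
    · rw [ul_out n _ (by push_cast; omega)]
      have e : (2 * ((0 : ℕ) : ℤ) - ((n + 1 : ℕ) : ℤ) + 1) = 2 * ((0 : ℕ) : ℤ) - n := by push_cast; ring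
      rw [e, ih]
      simp only [Nat.choose_zero_right, Nat.cast_one]
      rw [pow_succ]; field_simp; ring
    · have e : (2 * ((k + 1 : ℕ) : ℤ) - ((n + 1 : ℕ) : ℤ) + 1) = 2 * ((k + 1 : ℕ) : ℤ) - n := by
        push_cast; ring
      have e2 : (2 * ((k + 1 : ℕ) : ℤ) - ((n + 1 : ℕ) : ℤ) - 1) = 2 * (k : ℤ) - n := by
        push_cast; ring
      rw [e, e2, ih, ih, Nat.choose_succ_succ]
      push_cast
      rw [pow_succ]; field_simp

theorem aw_even (m : ℕ) : aw (2 * m) 1 = m.centralBinom / 4 ^ m := by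
  rw [aw_ph]
  have e : ph (2 * m) ((1 : ℕ) : ℤ) - ph (2 * m) (-((1 : ℕ) : ℤ)) = ul (2 * m) 1 + ul (2 * m) 0 := by
    unfold ul; norm_num
  rw [e, ul_par (2 * m) 1 (by push_cast; omega)]
  have h := ul_choose (2 * m) m
  have e2 : (2 * (m : ℤ) - ((2 * m : ℕ) : ℤ)) = 0 := by push_cast; ring
  rw [e2] at h
  rw [h, zero_add, Nat.centralBinom, pow_mul]
  norm_num

theorem aw_odd (m : ℕ) : aw (2 * m + 1) 1 = (m + 1).centralBinom / 4 ^ (m + 1) := by
  rw [aw_ph]
  have e : ph (2 * m + 1) ((1 : ℕ) : ℤ) - ph (2 * m + 1) (-((1 : ℕ) : ℤ)) =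
      ul (2 * m + 1) 1 + ul (2 * m + 1) 0 := by
    unfold ul; norm_num
  rw [e, ul_par (2 * m + 1) 0 (by push_cast; omega)]
  have h := ul_choose (2 * m + 1) (m + 1)
  have e2 : (2 * ((m + 1 : ℕ) : ℤ) - ((2 * m + 1 : ℕ) : ℤ)) = 1 := by push_cast; ring
  rw [e2] at h
  rw [h, add_zero, Nat.centralBinom]
  have h3 : (2 * (m + 1)).choose (m + 1) = 2 * (2 * m + 1).choose (m + 1) := by
    have e3 : 2 * (m + 1) = (2 * m + 1) + 1 := by ring
    rw [e3, Nat.choose_succ_succ]
    have : (2 * m + 1).choose m = (2 * m + 1).choose (m + 1) := by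
      apply Nat.choose_symm_of_eq_add; ring
    rw [Nat.succ_eq_add_one]
    omega
  rw [h3]
  push_cast
  have h4 : (4 : ℝ) ^ (m + 1) = 2 * 2 ^ (2 * m + 1) := by
    rw [show (4 : ℝ) = 2 ^ 2 by norm_num, ← pow_mul]; ring
  rw [h4, mul_div_mul_left _ _ (by norm_num)]

theorem cb_asymp : Tendsto (fun m : ℕ => √ (m : ℝ) * (m.centralBinom / 4 ^ m)) atTop
    (𝓝 (√ (1 / Real.pi))) := by
  have hW := Real.Wallis.tendsto_W_nhds_pi_div_two
  have h1 : ∀ n : ℕ, Real.Wallis.W n = 1 / ((n.centralBinom / 4 ^ n : ℝ) ^ 2 * (2 * n + 1)) := by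
    intro n
    rw [Real.Wallis.W_eq_factorial_ratio]
    have h2 : (n.centralBinom : ℝ) = (2 * n).factorial / (n.factorial : ℝ) ^ 2 := by
      rw [eq_div_iff (by positivity)]
      have := Nat.centralBinom_eq_two_mul_choose n
      have h3 := Nat.choose_mul_factorial_mul_factorial (show n ≤ 2 * n by omega)
      rw [← this, show 2 * n - n = n by omega] at h3
      have h4 : ((n.centralBinom * n.factorial * n.factorial : ℕ) : ℝ) = ((2 * n).factorial : ℕ) := by
        exact_mod_cast h3
      push_cast at h4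
      rw [← h4]; ring
    rw [h2]
    have e4 : (4 : ℝ) ^ n = 2 ^ (2 * n) := by rw [pow_mul]; norm_num
    have e5 : (2 : ℝ) ^ (4 * n) = (2 ^ (2 * n)) ^ 2 := by rw [← pow_mul]; ring_nf
    rw [e4, e5]
    have f1 : (0 : ℝ) < n.factorial := by positivity
    have f2 : (0 : ℝ) < (2 * n).factorial := by positivity
    field_simp
  have h2 : Tendsto (fun n : ℕ => (n.centralBinom / 4 ^ n : ℝ) ^ 2 * (2 * n + 1)) atTop (𝓝 (2 / Real.pi)) := by
    have h3 := hW.inv₀ (by positivity)
    rw [inv_div] at h3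
    refine h3.congr (fun n => ?_)
    rw [h1 n, one_div, inv_inv]
  have h3 : Tendsto (fun n : ℕ => (n : ℝ) / (2 * n + 1)) atTop (𝓝 (1 / 2)) := by
    have h4 : Tendsto (fun n : ℕ => (1 : ℝ) / (2 + 1 / n)) atTop (𝓝 (1 / (2 + 0))) := by
      apply Tendsto.div tendsto_const_nhds _ (by norm_num)
      exact tendsto_const_nhds.add (tendsto_const_div_atTop_nhds_zero_nat 1)
    rw [add_zero] at h4
    refine h4.congr' ?_
    filter_upwards [eventually_gt_atTop 0] with n hn
    have : (0 : ℝ) < n := by exact_mod_cast hn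
    field_simp
  have h4 := (h2.mul h3)
  have h5 : Tendsto (fun n : ℕ => (n : ℝ) * (n.centralBinom / 4 ^ n : ℝ) ^ 2) atTop (𝓝 (1 / Real.pi)) := by
    have e : 2 / Real.pi * (1 / 2) = 1 / Real.pi := by ring
    rw [e] at h4
    refine h4.congr (fun n => ?_)
    field_simp
  have h6 := (Real.continuous_sqrt.tendsto _).comp h5
  refine h6.congr (fun n => ?_)
  simp only [Function.comp]
  rw [Real.sqrt_mul (by positivity), Real.sqrt_sq (by positivity)]

end Pool.Agent.K6.H38.CT
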