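import Mathlib
import Pool.Agent.K6.H38.CT.D

set_option autoImplicit false

namespace Pool.Agent.K6.H38.CT

open Finset Filter Topology

/-! Asymptotics of the excursions and the Tauberian lemma. -/

/-- the constant -/
noncomputable def cc : ℝ := √ (2 / Real.pi)

theorem sqrt_ratio (a b : ℕ) : Tendsto (fun n : ℕ => √ ((n + a : ℕ) : ℝ) / √ ((n + b : ℕ) : ℝ)) atTop (𝓝 1) := by
  have h1 : Tendsto (fun n : ℕ => ((n + a : ℕ) : ℝ) / ((n + b : ℕ) : ℝ)) atTop (𝓝 1) := by
    have h2 : Tendsto (fun n : ℕ => (1 + (a : ℝ) / n) / (1 + (b : ℝ) / n)) atTop (𝓝 ((1 + 0) / (1 + 0))) := by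
      apply Tendsto.div _ _ (by norm_num)
      · exact tendsto_const_nhds.add (tendsto_const_div_atTop_nhds_zero_nat _)
      · exact tendsto_const_nhds.add (tendsto_const_div_atTop_nhds_zero_nat _)
    rw [add_zero, div_one] at h2
    refine h2.congr' ?_
    filter_upwards [eventually_gt_atTop 0] with n hn
    have : (0 : ℝ) < n := by exact_mod_cast hn
    push_cast
    field_simp
  have h2 := (Real.continuous_sqrt.tendsto _).comp h1
  rw [Real.sqrt_one] at h2
  refine h2.congr (fun n => ?_)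
  simp only [Function.comp]
  rw [Real.sqrt_div (by positivity)]

theorem two_sub {u : ℕ → ℝ} {l : ℝ} (he : Tendsto (fun m => u (2 * m)) atTop (𝓝 l))
    (ho : Tendsto (fun m => u (2 * m + 1)) atTop (𝓝 l)) : Tendsto u atTop (𝓝 l) := by
  rw [Metric.tendsto_atTop] at *
  intro ε hε
  obtain ⟨N1, h1⟩ := he ε hε
  obtain ⟨N2, h2⟩ := ho ε hε
  refine ⟨2 * (N1 + N2) + 2, fun n hn => ?_⟩
  rcases Nat.even_or_odd' n with ⟨m, rfl | rfl⟩
  · exact h1 m (by omega)
  · exact h2 m (by omega)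

theorem aw_asymp : Tendsto (fun n : ℕ => √ (n : ℝ) * aw n 1) atTop (𝓝 cc) := by
  have hc : √ 2 * √ (1 / Real.pi) = cc := by
    unfold cc
    rw [← Real.sqrt_mul (by norm_num)]; congr 1; ring
  have h := cb_asymp.const_mul (√ 2)
  rw [hc] at h
  apply two_sub
  · refine h.congr (fun m => ?_)
    rw [aw_even]
    push_cast
    rw [Real.sqrt_mul (by norm_num)]; ring
  · have h2 := h.comp (tendsto_add_atTop_nat 1)
    have h3 : Tendsto (fun m : ℕ => √ ((2 * m + 1 : ℕ) : ℝ) / √ ((2 * m + 2 : ℕ) : ℝ)) atTop (𝓝 1) :=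
      (sqrt_ratio 1 2).comp (tendsto_id.const_mul_atTop' (by norm_num : 0 < 2))
    have h4 := h3.mul h2
    rw [one_mul] at h4
    refine h4.congr (fun m => ?_)
    simp only [Function.comp]
    rw [aw_odd]
    have e : √ ((2 * m + 2 : ℕ) : ℝ) = √ 2 * √ ((m + 1 : ℕ) : ℝ) := by
      rw [← Real.sqrt_mul (by norm_num)]; congr 1; push_cast; ring
    rw [e]
    have p1 : 0 < √ (2 : ℝ) := by positivity
    have p2 : 0 < √ ((m + 1 : ℕ) : ℝ) := by positivity
    field_simp

theorem al_asymp : Tendsto (fun n : ℕ => √ (n : ℝ) * al n) atTop (𝓝 cc) := by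
  rw [← tendsto_add_atTop_iff_nat 1]
  have h := (sqrt_ratio 1 0).mul aw_asymp
  rw [one_mul] at h
  refine h.congr' ?_
  filter_upwards [eventually_gt_atTop 0] with n hn
  have p2 : 0 < √ ((n : ℕ) : ℝ) := Real.sqrt_pos.2 (by exact_mod_cast hn)
  rw [al, add_zero]
  field_simp

theorem cc_pos : 0 < cc := by unfold cc; positivity

theorem sqrt_shift (m : ℕ) {u : ℕ → ℝ} {l : ℝ} (h : Tendsto (fun n : ℕ => √ (n : ℝ) * u n) atTop (𝓝 l)) :
    Tendsto (fun n : ℕ => √ (n : ℝ) * u (n - m)) atTop (𝓝 l) := by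
  rw [← tendsto_add_atTop_iff_nat m]
  have h2 := (sqrt_ratio m 0).mul h
  rw [one_mul] at h2
  refine h2.congr' ?_
  filter_upwards [eventually_gt_atTop 0] with n hn
  have p2 : 0 < √ ((n : ℕ) : ℝ) := Real.sqrt_pos.2 (by exact_mod_cast hn)
  rw [add_zero, Nat.add_sub_cancel]
  field_simp

theorem sum_al_le : ∃ K : ℝ, 0 < K ∧ ∀ n : ℕ, ∑ j ∈ range n, al j ≤ K * √ (n : ℝ) := by
  obtain ⟨B, hB⟩ : ∃ B : ℝ, ∀ n : ℕ, √ (n : ℝ) * al n ≤ B :=
    (al_asymp.bddAbove_range).imp (fun B hB n => hB ⟨n, rfl⟩)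
  have hB0 : 0 ≤ B := by have := hB 0; simpa using this
  refine ⟨3 * B + 1, by positivity, ?_⟩
  intro n
  induction n with
  | zero => simp
  | succ n ih =>
    rw [sum_range_succ]
    rcases Nat.eq_zero_or_pos n with rfl | hn
    · simp only [sum_range_zero, zero_add, Nat.cast_one, Real.sqrt_one, al]; linarith
    · have h1 := hB n
      have p1 : 0 < √ (n : ℝ) := Real.sqrt_pos.2 (by exact_mod_cast hn)
      have p2 : √ (n : ℝ) ≤ √ ((n + 1 : ℕ) : ℝ) := Real.sqrt_le_sqrt (by push_cast; linarith)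
      have p3 : 0 < √ ((n + 1 : ℕ) : ℝ) := by positivity
      have e1 : √ ((n + 1 : ℕ) : ℝ) * √ ((n + 1 : ℕ) : ℝ) = n + 1 := by
        rw [Real.mul_self_sqrt (by positivity)]; push_cast; ring
      have e2 : √ (n : ℝ) * √ (n : ℝ) = n := Real.mul_self_sqrt (by positivity)
      have hal := al_nonneg n
      have e3 : √ ((n + 1 : ℕ) : ℝ) ≤ 2 * √ (n : ℝ) := by
        rw [Real.sqrt_le_left (by positivity), mul_pow, Real.sq_sqrt (by positivity)]
        have : (1 : ℝ) ≤ n := by exact_mod_cast hn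
        push_cast; linarith
      have e4 : al n * (√ ((n + 1 : ℕ) : ℝ) + √ (n : ℝ)) ≤ 3 * B := by nlinarith
      have e5 : (√ ((n + 1 : ℕ) : ℝ) + √ (n : ℝ)) * (√ ((n + 1 : ℕ) : ℝ) - √ (n : ℝ)) = 1 := by
        have e : (√ ((n + 1 : ℕ) : ℝ) + √ (n : ℝ)) * (√ ((n + 1 : ℕ) : ℝ) - √ (n : ℝ)) =
          √ ((n + 1 : ℕ) : ℝ) * √ ((n + 1 : ℕ) : ℝ) - √ (n : ℝ) * √ (n : ℝ) := by ring
        rw [e, e1, e2]; ring
      have e6 : al n ≤ 3 * B * (√ ((n + 1 : ℕ) : ℝ) - √ (n : ℝ)) := by
        calc al n = al n * (√ ((n + 1 : ℕ) : ℝ) + √ (n : ℝ)) * (√ ((n + 1 : ℕ) : ℝ) - √ (n : ℝ)) := by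
              rw [mul_assoc, e5, mul_one]
          _ ≤ _ := mul_le_mul_of_nonneg_right e4 (by linarith)
      nlinarith

theorem inner_sum (L t : ℕ) : ∑ j ∈ range L, (if j ≤ t then al (t - j) else 0) ≤ ∑ i ∈ range L, al i := by
  rcases Nat.lt_or_ge t L with h | h
  · have h1 : ∑ j ∈ range L, (if j ≤ t then al (t - j) else 0) = ∑ j ∈ range (t + 1), al (t - j) := by
      rw [← sum_filter]
      apply sum_congr _ (fun _ _ => rfl)
      ext j
      simp only [mem_filter, mem_range]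
      omega
    rw [h1]
    have h2 : ∑ j ∈ range (t + 1), al (t - j) = ∑ j ∈ range (t + 1), al j := by
      rw [← sum_range_reflect al (t + 1)]
      apply sum_congr rfl
      intro j _
      congr 1
    rw [h2]
    apply sum_le_sum_of_subset_of_nonneg
    · intro j hj; rw [mem_range] at *; omega
    · intro j _ _; exact al_nonneg j
  · rw [← sum_range_reflect al L]
    apply sum_le_sum
    intro j hj
    rw [mem_range] at hj
    rw [if_pos (by omega)]
    exact al_anti (by omega)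

theorem upper_window {φ β : ℕ → ℝ} {h : ℝ} (hφ0 : ∀ m, 0 ≤ φ m) (hφ : HasSum φ h) (hβ : Antitone β)
    (hconv : ∀ n, β n = ∑ m ∈ range (n + 1), φ m * al (n - m)) {K : ℝ}
    (hK : ∀ n : ℕ, ∑ j ∈ range n, al j ≤ K * √ (n : ℝ)) {n L M : ℕ} (hn : L + M ≤ n) :
    L * β n ≤ L * (h * al (n - (L + M))) + (h - ∑ m ∈ range M, φ m) * (K * √ (L : ℝ)) := by
  have hsumle : ∀ s : Finset ℕ, ∑ m ∈ s, φ m ≤ h := fun s => sum_le_hasSum s (fun m _ => hφ0 m) hφ
  have h1 : (L : ℝ) * β n ≤ ∑ j ∈ range L, β (n - j) := by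
    have : ∑ _j ∈ range L, β n = (L : ℝ) * β n := by rw [sum_const, card_range, nsmul_eq_mul]
    rw [← this]
    exact sum_le_sum (fun j _ => hβ (Nat.sub_le _ _))
  have h2 : ∀ j ∈ range L, β (n - j) ≤ h * al (n - (L + M)) +
      ∑ m ∈ Ico M (n + 1), φ m * (if j ≤ n - m then al (n - m - j) else 0) := by
    intro j hj
    rw [mem_range] at hj
    rw [hconv]
    have e : range (n - j + 1) = Ico 0 M ∪ Ico M (n - j + 1) := by
      rw [Ico_union_Ico_eq_Ico (by omega) (by omega), range_eq_Ico]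
    rw [e, sum_union (Ico_disjoint_Ico_consecutive _ _ _)]
    apply add_le_add
    · calc ∑ m ∈ Ico 0 M, φ m * al (n - j - m) ≤ ∑ m ∈ Ico 0 M, φ m * al (n - (L + M)) := by
            apply sum_le_sum
            intro m hm
            rw [mem_Ico] at hm
            exact mul_le_mul_of_nonneg_left (al_anti (by omega)) (hφ0 m)
        _ = (∑ m ∈ Ico 0 M, φ m) * al (n - (L + M)) := by rw [sum_mul]
        _ ≤ h * al (n - (L + M)) := mul_le_mul_of_nonneg_right (hsumle _) (al_nonneg _)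
    · calc ∑ m ∈ Ico M (n - j + 1), φ m * al (n - j - m) =
          ∑ m ∈ Ico M (n - j + 1), φ m * (if j ≤ n - m then al (n - m - j) else 0) := by
            apply sum_congr rfl
            intro m hm
            rw [mem_Ico] at hm
            rw [if_pos (by omega)]
            congr 2; omega
        _ ≤ _ := by
            apply sum_le_sum_of_subset_of_nonneg
            · intro m hm; rw [mem_Ico] at *; omega
            · intro m _ _
              apply mul_nonneg (hφ0 m)
              split_ifs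
              · exact al_nonneg _
              · exact le_rfl
  have h3 := h1.trans (sum_le_sum h2)
  rw [sum_add_distrib, sum_const, card_range, nsmul_eq_mul, sum_comm] at h3
  refine h3.trans ?_
  apply add_le_add le_rfl
  have h4 : ∑ m ∈ Ico M (n + 1), φ m ≤ h - ∑ m ∈ range M, φ m := by
    have := hsumle (Ico 0 M ∪ Ico M (n + 1))
    rw [sum_union (Ico_disjoint_Ico_consecutive _ _ _), ← range_eq_Ico] at this
    linarith
  have hKL : 0 ≤ K * √ (L : ℝ) := (sum_nonneg (fun j _ => al_nonneg j)).trans (hK L)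
  calc ∑ m ∈ Ico M (n + 1), ∑ j ∈ range L, φ m * (if j ≤ n - m then al (n - m - j) else 0)
      ≤ ∑ m ∈ Ico M (n + 1), φ m * (K * √ (L : ℝ)) := by
        apply sum_le_sum
        intro m _
        rw [← mul_sum]
        exact mul_le_mul_of_nonneg_left ((inner_sum L (n - m)).trans (hK L)) (hφ0 m)
    _ = (∑ m ∈ Ico M (n + 1), φ m) * (K * √ (L : ℝ)) := by rw [sum_mul]
    _ ≤ _ := mul_le_mul_of_nonneg_right h4 hKL

/-- the Tauberian lemma -/
theorem tauber {φ β : ℕ → ℝ} {h : ℝ} (hφ0 : ∀ m, 0 ≤ φ m) (hφ : HasSum φ h) (hβ : Antitone β)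
    (hconv : ∀ n, β n = ∑ m ∈ range (n + 1), φ m * al (n - m)) :
    Tendsto (fun n : ℕ => √ (n : ℝ) * β n) atTop (𝓝 (h * cc)) := by
  obtain ⟨K, hK0, hK⟩ := sum_al_le
  have hc := cc_pos
  have hh : 0 ≤ h := hφ.nonneg hφ0
  have hsumle : ∀ s : Finset ℕ, ∑ m ∈ s, φ m ≤ h := fun s => sum_le_hasSum s (fun m _ => hφ0 m) hφ
  have hpart := hφ.tendsto_sum_nat
  rw [Metric.tendsto_atTop]
  intro ε hε
  -- lower bound
  have hlow : ∀ᶠ n : ℕ in atTop, h * cc - ε < √ (n : ℝ) * β n := by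
    have h1 : Tendsto (fun M => (∑ m ∈ range M, φ m) * cc) atTop (𝓝 (h * cc)) := hpart.mul_const _
    obtain ⟨M, hM⟩ := (h1.eventually (lt_mem_nhds (show h * cc - ε / 2 < h * cc by linarith))).exists
    have h2 : Tendsto (fun n : ℕ => ∑ m ∈ range M, φ m * (√ (n : ℝ) * al (n - m))) atTop
        (𝓝 (∑ m ∈ range M, φ m * cc)) :=
      tendsto_finsetSum _ (fun m _ => (sqrt_shift m al_asymp).const_mul _)
    rw [← sum_mul] at h2
    filter_upwards [h2.eventually (lt_mem_nhds (show h * cc - ε < (∑ m ∈ range M, φ m) * cc by linarith)),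
      eventually_ge_atTop M] with n hn hnM
    refine hn.trans_le ?_
    rw [hconv, mul_sum]
    calc ∑ m ∈ range M, φ m * (√ (n : ℝ) * al (n - m)) = ∑ m ∈ range M, √ (n : ℝ) * (φ m * al (n - m)) :=
          sum_congr rfl (fun m _ => by ring)
      _ ≤ _ := by
          apply sum_le_sum_of_subset_of_nonneg
          · intro m hm; rw [mem_range] at *; omega
          · intro m _ _
            exact mul_nonneg (Real.sqrt_nonneg _) (mul_nonneg (hφ0 m) (al_nonneg _))
  -- upper bound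
  have hup : ∀ᶠ n : ℕ in atTop, √ (n : ℝ) * β n < h * cc + ε := by
    -- choose p
    have hp1 : Tendsto (fun p : ℕ => h * ((cc + 1 / p) * (1 + 4 / p))) atTop (𝓝 (h * ((cc + 0) * (1 + 0)))) := by
      apply Tendsto.const_mul
      apply Tendsto.mul
      · exact tendsto_const_nhds.add (tendsto_const_div_atTop_nhds_zero_nat 1)
      · exact tendsto_const_nhds.add (tendsto_const_div_atTop_nhds_zero_nat 4)
    rw [add_zero, add_zero, mul_one] at hp1
    obtain ⟨p, hp, hp4⟩ := ((hp1.eventually (gt_mem_nhds (show h * cc < h * cc + ε / 2 by linarith))).and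
      (eventually_ge_atTop 4)).exists
    have hpr : (4 : ℝ) ≤ p := by exact_mod_cast hp4
    -- choose M
    have h1 : Tendsto (fun M => (h - ∑ m ∈ range M, φ m) * (K * √ (2 * p : ℝ))) atTop
        (𝓝 ((h - h) * (K * √ (2 * p : ℝ)))) := (tendsto_const_nhds.sub hpart).mul_const _
    rw [sub_self, zero_mul] at h1
    obtain ⟨M, hM⟩ := (h1.eventually (gt_mem_nhds (show (0 : ℝ) < ε / 2 by linarith))).exists
    have h2 : ∀ᶠ k : ℕ in atTop, √ (k : ℝ) * al k < cc + 1 / p :=
      al_asymp.eventually (gt_mem_nhds (by have : (0 : ℝ) < 1 / p := by positivity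
                                           linarith))
    obtain ⟨k0, hk0⟩ := eventually_atTop.1 h2
    filter_upwards [eventually_ge_atTop (p * (M + k0 + 1) + 2 * k0 + 2 * M + 2)] with n hn
    have hp0 : 0 < p := by omega
    set L : ℕ := n / p with hL
    have hL1 : L * p ≤ n := Nat.div_mul_le_self n p
    have hL2 : n < (L + 1) * p := by
      have := Nat.lt_div_mul_add (a := n) hp0
      rw [add_mul, one_mul]; exact this
    have hL3 : 1 ≤ L := by
      rw [hL, Nat.le_div_iff_mul_le hp0]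
      nlinarith
    have hL4 : L * 4 ≤ n := (Nat.mul_le_mul_left L hp4).trans hL1
    have hMn : p * (M + k0 + 1) ≤ n := by omega
    have hMn4 : 4 * M ≤ n := by nlinarith
    have hnLM : L + M ≤ n := by omega
    have h3 := upper_window hφ0 hφ hβ hconv hK hnLM
    have hnr : (0 : ℝ) < n := by
      have : 0 < n := by omega
      exact_mod_cast this
    have hLr : (1 : ℝ) ≤ L := by exact_mod_cast hL3
    set k : ℕ := n - (L + M) with hk
    have hkk : k0 ≤ k := by omega
    have hkr : (k : ℝ) = n - L - M := by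
      rw [hk, Nat.cast_sub hnLM]; push_cast; ring
    have h4 := hk0 k hkk
    -- sqrt n ≤ (1 + 4/p) sqrt k
    have h5 : √ (n : ℝ) ≤ (1 + 4 / p) * √ (k : ℝ) := by
      have e1 : (L : ℝ) ≤ n / p := by
        rw [le_div_iff₀ (by linarith)]; exact_mod_cast hL1
      have e2 : (M : ℝ) ≤ n / p := by
        rw [le_div_iff₀ (by linarith)]
        have : M * p ≤ n := by nlinarith
        exact_mod_cast this
      have e3 : (n : ℝ) * (1 - 2 / p) ≤ k := by
        rw [hkr]
        have : (n : ℝ) * (1 - 2 / p) = n - n / p - n / p := by ring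
        linarith
      rw [Real.sqrt_le_left (by positivity), mul_pow, Real.sq_sqrt (by positivity)]
      have e4 : (1 : ℝ) ≤ (1 + 4 / p) ^ 2 * (1 - 2 / p) := by
        have hx : (0 : ℝ) < 1 / p := by positivity
        have hx2 : (1 : ℝ) / p ≤ 1 / 4 := by
          rw [div_le_div_iff₀ (by linarith) (by norm_num)]; linarith
        have e5 : (4 : ℝ) / p = 4 * (1 / p) := by ring
        have e6 : (2 : ℝ) / p = 2 * (1 / p) := by ring
        rw [e5, e6]
        set x : ℝ := 1 / p with hxdef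
        nlinarith [mul_nonneg hx.le hx.le, mul_nonneg (mul_nonneg hx.le hx.le) hx.le]
      calc (n : ℝ) ≤ n * ((1 + 4 / p) ^ 2 * (1 - 2 / p)) := by nlinarith
        _ = (1 + 4 / p) ^ 2 * (n * (1 - 2 / p)) := by ring
        _ ≤ (1 + 4 / p) ^ 2 * k := mul_le_mul_of_nonneg_left e3 (by positivity)
    have hal := al_nonneg k
    have h6 : √ (n : ℝ) * (h * al k) ≤ h * ((cc + 1 / p) * (1 + 4 / p)) := by
      have e1 : √ (n : ℝ) * al k ≤ (cc + 1 / p) * (1 + 4 / p) := by
        calc √ (n : ℝ) * al k ≤ ((1 + 4 / p) * √ (k : ℝ)) * al k := mul_le_mul_of_nonneg_right h5 hal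
          _ = (√ (k : ℝ) * al k) * (1 + 4 / p) := by ring
          _ ≤ _ := mul_le_mul_of_nonneg_right h4.le (by positivity)
      calc √ (n : ℝ) * (h * al k) = h * (√ (n : ℝ) * al k) := by ring
        _ ≤ _ := mul_le_mul_of_nonneg_left e1 hh
    -- second part
    have h7 : √ (n : ℝ) * √ (L : ℝ) ≤ √ (2 * p : ℝ) * L := by
      have e1 : (n : ℝ) ≤ 2 * p * L := by
        have : n ≤ 2 * p * L := by nlinarith
        exact_mod_cast this
      have e2 : √ (n : ℝ) ≤ √ (2 * p : ℝ) * √ (L : ℝ) := by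
        rw [← Real.sqrt_mul (by positivity)]
        exact Real.sqrt_le_sqrt e1
      calc √ (n : ℝ) * √ (L : ℝ) ≤ (√ (2 * p : ℝ) * √ (L : ℝ)) * √ (L : ℝ) :=
            mul_le_mul_of_nonneg_right e2 (Real.sqrt_nonneg _)
        _ = √ (2 * p : ℝ) * L := by rw [mul_assoc, Real.mul_self_sqrt (by positivity)]
    have htail : 0 ≤ h - ∑ m ∈ range M, φ m := by linarith [hsumle (range M)]
    have h8 : (L : ℝ) * (√ (n : ℝ) * β n) ≤ L * (h * cc + ε / 2 + ε / 2) - L * (ε / 2 -
        (h - ∑ m ∈ range M, φ m) * (K * √ (2 * p : ℝ))) := by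
      have e1 : (L : ℝ) * (√ (n : ℝ) * β n) ≤ L * (√ (n : ℝ) * (h * al k)) +
          (h - ∑ m ∈ range M, φ m) * (K * (√ (n : ℝ) * √ (L : ℝ))) := by
        have := mul_le_mul_of_nonneg_left h3 (Real.sqrt_nonneg (n : ℝ))
        nlinarith
      have e2 : (h - ∑ m ∈ range M, φ m) * (K * (√ (n : ℝ) * √ (L : ℝ))) ≤
          (h - ∑ m ∈ range M, φ m) * (K * (√ (2 * p : ℝ) * L)) :=
        mul_le_mul_of_nonneg_left (mul_le_mul_of_nonneg_left h7 hK0.le) htail
      have e3 : (L : ℝ) * (√ (n : ℝ) * (h * al k)) ≤ L * (h * cc + ε / 2) :=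
        mul_le_mul_of_nonneg_left (h6.trans hp.le) (by linarith)
      nlinarith
    have h9 : 0 < (L : ℝ) * (ε / 2 - (h - ∑ m ∈ range M, φ m) * (K * √ (2 * p : ℝ))) := by
      apply mul_pos (by linarith)
      linarith
    have h10 : (L : ℝ) * (√ (n : ℝ) * β n) < L * (h * cc + ε) := by
      have : (L : ℝ) * (h * cc + ε / 2 + ε / 2) = L * (h * cc + ε) := by ring
      linarith
    exact lt_of_mul_lt_mul_left h10 (by linarith)
  obtain ⟨N1, hN1⟩ := eventually_atTop.1 hlow
  obtain ⟨N2, hN2⟩ := eventually_atTop.1 hup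
  refine ⟨max N1 N2, fun n hn => ?_⟩
  have a1 := hN1 n ((le_max_left _ _).trans hn)
  have a2 := hN2 n ((le_max_right _ _).trans hn)
  rw [Real.dist_eq, abs_lt]
  constructor <;> linarith

end Pool.Agent.K6.H38.CT
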