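import Mathlib
import Pool.Agent.K6.H38.CT.C
import Pool.Agent.K6.H38.CT.E

set_option autoImplicit false

namespace Pool.Agent.K6.H38.CT

open Finset Filter Topology
open Pool.Agent.H499R2.CO

/-! The law of the number of disagreements. -/

/-- probability that among the first `k` states at least `n` have odd difference -/
noncomputable def DD : ℕ → ℕ → ℕ × ℤ → ℝ
  | 0, 0, _ => 1
  | 0, _ + 1, _ => 0
  | _ + 1, 0, _ => 1
  | k + 1, n + 1, s => if s.2 % 2 = 1 then P (DD k n) s else P (DD k (n + 1)) s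

/-- expected number of visits at level `0` with odd difference after exactly `m` disagreements -/
noncomputable def PH : ℕ → ℕ → ℕ × ℤ → ℝ
  | 0, _, _ => 0
  | k + 1, 0, s => if s.2 % 2 = 1 then bz s else P (PH k 0) s
  | k + 1, m + 1, s => if s.2 % 2 = 1 then P (PH k m) s else P (PH k (m + 1)) s

theorem DD_zero (k : ℕ) (s : ℕ × ℤ) : DD k 0 s = 1 := by
  rcases k with _ | k <;> rw [DD]

theorem DD_odd {k n : ℕ} {s : ℕ × ℤ} (h : s.2 % 2 = 1) : DD (k + 1) (n + 1) s = P (DD k n) s := by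
  rw [DD, if_pos h]

theorem DD_even {k n : ℕ} {s : ℕ × ℤ} (h : ¬ s.2 % 2 = 1) : DD (k + 1) (n + 1) s = P (DD k (n + 1)) s := by
  rw [DD, if_neg h]

theorem P_le {F : ℕ × ℤ → ℝ} {c : ℝ} (h : ∀ s, F s ≤ c) (s : ℕ × ℤ) : P F s ≤ c := by
  unfold P
  have := h (step s false); have := h (step s true); linarith

theorem DD_nonneg : ∀ (k n : ℕ) (s : ℕ × ℤ), 0 ≤ DD k n s := by
  intro k
  induction k with
  | zero => intro n s; rcases n with _ | n <;> rw [DD]; norm_num
  | succ k ih =>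
    intro n s
    rcases n with _ | n
    · rw [DD]; norm_num
    · rw [DD]; split_ifs
      · exact P_nonneg (ih n) s
      · exact P_nonneg (ih (n + 1)) s

theorem DD_le_one : ∀ (k n : ℕ) (s : ℕ × ℤ), DD k n s ≤ 1 := by
  intro k
  induction k with
  | zero => intro n s; rcases n with _ | n <;> rw [DD]; norm_num
  | succ k ih =>
    intro n s
    rcases n with _ | n
    · rw [DD]
    · rw [DD]; split_ifs
      · exact P_le (ih n) s
      · exact P_le (ih (n + 1)) s

theorem DD_mono : ∀ (k n : ℕ) (s : ℕ × ℤ), DD k n s ≤ DD (k + 1) n s := by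
  intro k
  induction k with
  | zero =>
    intro n s
    rcases n with _ | n
    · rw [DD_zero, DD_zero]
    · rw [show DD 0 (n + 1) s = 0 from rfl]; exact DD_nonneg _ _ _
  | succ k ih =>
    intro n s
    rcases n with _ | n
    · rw [DD_zero, DD_zero]
    · by_cases h : s.2 % 2 = 1
      · rw [DD_odd h, DD_odd h]; exact P_mono (ih n) s
      · rw [DD_even h, DD_even h]; exact P_mono (ih (n + 1)) s

theorem DD_anti : ∀ (k n : ℕ) (s : ℕ × ℤ), DD k (n + 1) s ≤ DD k n s := by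
  intro k
  induction k with
  | zero =>
    intro n s
    rw [show DD 0 (n + 1) s = 0 from rfl]; exact DD_nonneg _ _ _
  | succ k ih =>
    intro n s
    rcases n with _ | n
    · rw [DD_zero]; exact DD_le_one _ _ _
    · by_cases h : s.2 % 2 = 1
      · rw [DD_odd h, DD_odd h]; exact P_mono (ih n) s
      · rw [DD_even h, DD_even h]; exact P_mono (ih (n + 1)) s

theorem DD_o (k n : ℕ) : DD k (n + 1) (0, 0) = 0 := by
  induction k with
  | zero => rfl
  | succ k ih => rw [DD_even (by norm_num), P_o, ih]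

theorem bz_of_even {s : ℕ × ℤ} (h : ¬ s.2 % 2 = 1) : bz s = 0 := by
  unfold bz; rw [if_neg (fun h' => h h'.2)]

theorem bz_le_one (s : ℕ × ℤ) : bz s ≤ 1 := by unfold bz; split_ifs <;> norm_num

theorem PH_zero_odd {k : ℕ} {s : ℕ × ℤ} (h : s.2 % 2 = 1) : PH (k + 1) 0 s = bz s := by
  rw [PH, if_pos h]

theorem PH_zero_even {k : ℕ} {s : ℕ × ℤ} (h : ¬ s.2 % 2 = 1) : PH (k + 1) 0 s = P (PH k 0) s := by
  rw [PH, if_neg h]

theorem PH_odd {k m : ℕ} {s : ℕ × ℤ} (h : s.2 % 2 = 1) : PH (k + 1) (m + 1) s = P (PH k m) s := by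
  rw [PH, if_pos h]

theorem PH_even {k m : ℕ} {s : ℕ × ℤ} (h : ¬ s.2 % 2 = 1) : PH (k + 1) (m + 1) s = P (PH k (m + 1)) s := by
  rw [PH, if_neg h]

theorem PH_nonneg : ∀ (k n : ℕ) (s : ℕ × ℤ), 0 ≤ PH k n s := by
  intro k
  induction k with
  | zero => intro n s; exact le_rfl
  | succ k ih =>
    intro n s
    rcases n with _ | n
    · rw [PH]; split_ifs
      · exact bz_nonneg s
      · exact P_nonneg (ih 0) s
    · rw [PH]; split_ifs
      · exact P_nonneg (ih n) s
      · exact P_nonneg (ih (n + 1)) s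

theorem PH_le_one : ∀ (k n : ℕ) (s : ℕ × ℤ), PH k n s ≤ 1 := by
  intro k
  induction k with
  | zero => intro n s; rw [PH]; norm_num
  | succ k ih =>
    intro n s
    rcases n with _ | n
    · rw [PH]; split_ifs
      · exact bz_le_one s
      · exact P_le (ih 0) s
    · rw [PH]; split_ifs
      · exact P_le (ih n) s
      · exact P_le (ih (n + 1)) s

theorem PH_mono : ∀ (k n : ℕ) (s : ℕ × ℤ), PH k n s ≤ PH (k + 1) n s := by
  intro k
  induction k with
  | zero => intro n s; exact PH_nonneg _ _ _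
  | succ k ih =>
    intro n s
    rcases n with _ | n
    · by_cases h : s.2 % 2 = 1
      · rw [PH_zero_odd h, PH_zero_odd h]
      · rw [PH_zero_even h, PH_zero_even h]; exact P_mono (ih 0) s
    · by_cases h : s.2 % 2 = 1
      · rw [PH_odd h, PH_odd h]; exact P_mono (ih n) s
      · rw [PH_even h, PH_even h]; exact P_mono (ih (n + 1)) s

theorem PH_o (k m : ℕ) : PH k m (0, 0) = 0 := by
  induction k with
  | zero => rfl
  | succ k ih =>
    rcases m with _ | m
    · rw [PH_zero_even (by norm_num), P_o, ih]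
    · rw [PH_even (by norm_num), P_o, ih]

theorem P_sum (F : ℕ → ℕ × ℤ → ℝ) (n : ℕ) (s : ℕ × ℤ) :
    ∑ m ∈ range n, P (F m) s = P (fun s => ∑ m ∈ range n, F m s) s := by
  unfold P
  rw [← sum_div, sum_add_distrib]

theorem PH_sum_le : ∀ (k M : ℕ) (s : ℕ × ℤ), ∑ m ∈ range M, PH k m s ≤ Nb bz k s := by
  intro k
  induction k with
  | zero => intro M s; simp [PH, Nb]
  | succ k ih =>
    intro M s
    rw [Nb_succ]
    rcases M with _ | M
    · rw [sum_range_zero]
      exact add_nonneg (bz_nonneg s) (P_nonneg (Nb_nonneg bz_nonneg k) s)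
    · rw [sum_range_succ']
      by_cases h : s.2 % 2 = 1
      · rw [PH_zero_odd h]
        have e : ∑ m ∈ range M, PH (k + 1) (m + 1) s = ∑ m ∈ range M, P (PH k m) s :=
          sum_congr rfl (fun m _ => PH_odd h)
        rw [e, P_sum, add_comm]
        exact add_le_add le_rfl (P_mono (ih M) s)
      · rw [PH_zero_even h, bz_of_even h, zero_add]
        have e : ∑ m ∈ range M, PH (k + 1) (m + 1) s + P (PH k 0) s =
            ∑ m ∈ range (M + 1), P (PH k m) s := by
          rw [sum_range_succ']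
          congr 1
          exact sum_congr rfl (fun m _ => PH_even h)
        rw [e, P_sum]
        exact P_mono (ih (M + 1)) s

theorem PH_sum_eq : ∀ (k M : ℕ) (s : ℕ × ℤ), k ≤ M → ∑ m ∈ range M, PH k m s = Nb bz k s := by
  intro k
  induction k with
  | zero => intro M s _; simp [PH, Nb]
  | succ k ih =>
    intro M s hM
    rw [Nb_succ]
    obtain ⟨M, rfl⟩ : ∃ M', M = M' + 1 := ⟨M - 1, by omega⟩
    rw [sum_range_succ']
    by_cases h : s.2 % 2 = 1
    · rw [PH_zero_odd h]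
      have e : ∑ m ∈ range M, PH (k + 1) (m + 1) s = ∑ m ∈ range M, P (PH k m) s :=
        sum_congr rfl (fun m _ => PH_odd h)
      have e2 : (fun s => ∑ m ∈ range M, PH k m s) = Nb bz k := funext (fun s => ih M s (by omega))
      rw [e, P_sum, e2, add_comm]
    · rw [PH_zero_even h, bz_of_even h, zero_add]
      have e : ∑ m ∈ range M, PH (k + 1) (m + 1) s + P (PH k 0) s =
          ∑ m ∈ range (M + 1), P (PH k m) s := by
        rw [sum_range_succ']
        congr 1
        exact sum_congr rfl (fun m _ => PH_even h)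
      have e2 : (fun s => ∑ m ∈ range (M + 1), PH k m s) = Nb bz k :=
        funext (fun s => ih (M + 1) s (by omega))
      rw [e, P_sum, e2]

/-- probability of at least `n` disagreements -/
noncomputable def Di (n : ℕ) (s : ℕ × ℤ) : ℝ := ⨆ k, DD k n s

noncomputable def Pi' (m : ℕ) (s : ℕ × ℤ) : ℝ := ⨆ k, PH k m s

theorem Di_tendsto (n : ℕ) (s : ℕ × ℤ) : Tendsto (fun k => DD k n s) atTop (𝓝 (Di n s)) :=
  tendsto_of_mono (fun k => DD_mono k n s) (fun k => DD_le_one k n s)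

theorem Pi_tendsto (n : ℕ) (s : ℕ × ℤ) : Tendsto (fun k => PH k n s) atTop (𝓝 (Pi' n s)) :=
  tendsto_of_mono (fun k => PH_mono k n s) (fun k => PH_le_one k n s)

theorem P_tendsto {F : ℕ → ℕ × ℤ → ℝ} {G : ℕ × ℤ → ℝ} (h : ∀ s, Tendsto (fun k => F k s) atTop (𝓝 (G s)))
    (s : ℕ × ℤ) : Tendsto (fun k => P (F k) s) atTop (𝓝 (P G s)) := by
  unfold P
  exact ((h _).add (h _)).div_const 2

theorem Di_zero (s : ℕ × ℤ) : Di 0 s = 1 := by
  refine tendsto_nhds_unique (Di_tendsto 0 s) ?_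
  refine tendsto_const_nhds.congr (fun k => (DD_zero k s).symm)

theorem Di_odd {n : ℕ} {s : ℕ × ℤ} (h : s.2 % 2 = 1) : Di (n + 1) s = P (Di n) s := by
  refine tendsto_nhds_unique ((Di_tendsto (n + 1) s).comp (tendsto_add_atTop_nat 1)) ?_
  exact (P_tendsto (fun s => Di_tendsto n s) s).congr (fun k => (DD_odd h).symm)

theorem Di_even {n : ℕ} {s : ℕ × ℤ} (h : ¬ s.2 % 2 = 1) : Di (n + 1) s = P (Di (n + 1)) s := by
  refine tendsto_nhds_unique ((Di_tendsto (n + 1) s).comp (tendsto_add_atTop_nat 1)) ?_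
  exact (P_tendsto (fun s => Di_tendsto (n + 1) s) s).congr (fun k => (DD_even h).symm)

theorem Di_o (n : ℕ) : Di (n + 1) (0, 0) = 0 := by
  refine tendsto_nhds_unique (Di_tendsto (n + 1) (0, 0)) ?_
  exact tendsto_const_nhds.congr (fun k => (DD_o k n).symm)

theorem Di_nonneg (n : ℕ) (s : ℕ × ℤ) : 0 ≤ Di n s :=
  ge_of_tendsto' (Di_tendsto n s) (fun k => DD_nonneg k n s)

theorem Di_le_one (n : ℕ) (s : ℕ × ℤ) : Di n s ≤ 1 :=
  le_of_tendsto' (Di_tendsto n s) (fun k => DD_le_one k n s)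

theorem Di_anti (s : ℕ × ℤ) : Antitone (fun n => Di n s) :=
  antitone_nat_of_succ_le (fun n =>
    le_of_tendsto_of_tendsto' (Di_tendsto (n + 1) s) (Di_tendsto n s) (fun k => DD_anti k n s))

theorem Pi_zero_odd {s : ℕ × ℤ} (h : s.2 % 2 = 1) : Pi' 0 s = bz s := by
  refine tendsto_nhds_unique ((Pi_tendsto 0 s).comp (tendsto_add_atTop_nat 1)) ?_
  exact tendsto_const_nhds.congr (fun k => (PH_zero_odd h).symm)

theorem Pi_odd {m : ℕ} {s : ℕ × ℤ} (h : s.2 % 2 = 1) : Pi' (m + 1) s = P (Pi' m) s := by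
  refine tendsto_nhds_unique ((Pi_tendsto (m + 1) s).comp (tendsto_add_atTop_nat 1)) ?_
  exact (P_tendsto (fun s => Pi_tendsto m s) s).congr (fun k => (PH_odd h).symm)

theorem Pi_even {m : ℕ} {s : ℕ × ℤ} (h : ¬ s.2 % 2 = 1) : Pi' m s = P (Pi' m) s := by
  refine tendsto_nhds_unique ((Pi_tendsto m s).comp (tendsto_add_atTop_nat 1)) ?_
  refine (P_tendsto (fun s => Pi_tendsto m s) s).congr (fun k => ?_)
  rcases m with _ | m
  · exact (PH_zero_even h).symm
  · exact (PH_even h).symm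

theorem Pi_o (m : ℕ) : Pi' m (0, 0) = 0 := by
  refine tendsto_nhds_unique (Pi_tendsto m (0, 0)) ?_
  exact tendsto_const_nhds.congr (fun k => (PH_o k m).symm)

theorem Pi_nonneg (m : ℕ) (s : ℕ × ℤ) : 0 ≤ Pi' m s :=
  ge_of_tendsto' (Pi_tendsto m s) (fun k => PH_nonneg k m s)

theorem Pi_le_one (m : ℕ) (s : ℕ × ℤ) : Pi' m s ≤ 1 :=
  le_of_tendsto' (Pi_tendsto m s) (fun k => PH_le_one k m s)

theorem Pi_hasSum (s : ℕ × ℤ) : HasSum (fun m => Pi' m s) (Ni bz s) := by
  have hsum : ∀ M : ℕ, Tendsto (fun k => ∑ m ∈ range M, PH k m s) atTop (𝓝 (∑ m ∈ range M, Pi' m s)) :=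
    fun M => tendsto_finsetSum _ (fun m _ => Pi_tendsto m s)
  have hle : ∀ M : ℕ, ∑ m ∈ range M, Pi' m s ≤ Ni bz s := fun M =>
    le_of_tendsto' (hsum M) (fun k => (PH_sum_le k M s).trans (Nb_le_Ni bz_nonneg bz_le k s))
  rw [hasSum_iff_tendsto_nat_of_nonneg (fun m => Pi_nonneg m s)]
  have hge : ∀ k : ℕ, Nb bz k s ≤ ∑ m ∈ range k, Pi' m s := by
    intro k
    rw [← PH_sum_eq k k s le_rfl]
    apply sum_le_sum
    intro m _
    exact (monotone_nat_of_le_succ (f := fun k => PH k m s) (fun k => PH_mono k m s)).ge_of_tendsto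
      (Pi_tendsto m s) k
  exact tendsto_of_tendsto_of_tendsto_of_le_of_le (Ni_tendsto bz_nonneg bz_le s) tendsto_const_nhds
    hge hle

/-- uniqueness -/
theorem unique_zero {F : ℕ × ℤ → ℝ} {M : ℝ} (hM : ∀ s, |F s| ≤ M) (hodd : ∀ s : ℕ × ℤ, s.2 % 2 = 1 → F s = 0)
    (ho : F (0, 0) = 0) (heven : ∀ s : ℕ × ℤ, ¬ s.2 % 2 = 1 → F s = P F s) (s : ℕ × ℤ) : F s = 0 := by
  have hM0 : 0 ≤ M := (abs_nonneg _).trans (hM (0, 0))
  have key : ∀ (k : ℕ) (s : ℕ × ℤ), |F s| ≤ M * q step (0, 0) k s := by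
    intro k
    induction k with
    | zero =>
      intro s
      by_cases h : s = (0, 0)
      · subst h; rw [ho, q_o]; simp
      · rw [q_zero_ne _ _ h, mul_one]; exact hM s
    | succ k ih =>
      intro s
      by_cases h : s.2 % 2 = 1
      · rw [hodd s h, abs_zero]; exact mul_nonneg hM0 (q_nonneg _ _ _ _)
      · rw [heven s h, q_succ_eq, ← P_const_mul]
        have h1 := ih (step s false)
        have h2 := ih (step s true)
        unfold P
        rw [abs_div, abs_two]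
        have h3 := abs_add_le (F (step s false)) (F (step s true))
        linarith
  have h1 := (q_lim s).const_mul M
  rw [mul_zero] at h1
  have h2 : |F s| ≤ 0 := ge_of_tendsto' h1 (fun k => key k s)
  exact abs_eq_zero.1 (le_antisymm h2 (abs_nonneg _))

/-- the right-hand side of the renewal identity -/
noncomputable def RR (n : ℕ) (s : ℕ × ℤ) : ℝ := aw n s.1 + ∑ m ∈ range (n + 1), Pi' m s * al (n - m)

theorem step_even_level {s : ℕ × ℤ} (h : ¬ s.2 % 2 = 1) (c : Bool) : (step s c).1 = s.1 := by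
  obtain ⟨i, r⟩ := s
  have hr : r % 2 = 0 := by simp only at h; omega
  cases c
  · rw [step_ef hr]
  · rw [step_et hr]

theorem al_le_one (n : ℕ) : al n ≤ 1 := by
  have := al_anti (Nat.zero_le n)
  rwa [show al 0 = 1 from rfl] at this

theorem RR_bound (n : ℕ) (s : ℕ × ℤ) : |RR n s| ≤ n + 2 := by
  have h1 := aw_nonneg n s.1
  have h2 := aw_le_one n s.1
  have h3 : 0 ≤ ∑ m ∈ range (n + 1), Pi' m s * al (n - m) :=
    sum_nonneg (fun m _ => mul_nonneg (Pi_nonneg m s) (al_nonneg _))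
  have h4 : ∑ m ∈ range (n + 1), Pi' m s * al (n - m) ≤ n + 1 := by
    calc ∑ m ∈ range (n + 1), Pi' m s * al (n - m) ≤ ∑ m ∈ range (n + 1), (1 : ℝ) := by
          apply sum_le_sum
          intro m _
          exact mul_le_one₀ (Pi_le_one m s) (al_nonneg _) (al_le_one _)
      _ = n + 1 := by simp
  unfold RR
  rw [abs_of_nonneg (add_nonneg h1 h3)]
  linarith

theorem P_mul_const (F : ℕ × ℤ → ℝ) (c : ℝ) (s : ℕ × ℤ) : P (fun s => F s * c) s = P F s * c := by
  unfold P; ring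

theorem RR_even (n : ℕ) {s : ℕ × ℤ} (h : ¬ s.2 % 2 = 1) : RR n s = P (RR n) s := by
  have e : P (RR n) s = P (fun s => aw n s.1) s + ∑ m ∈ range (n + 1), P (Pi' m) s * al (n - m) := by
    have : RR n = fun s => (fun s : ℕ × ℤ => aw n s.1) s +
      (fun s => ∑ m ∈ range (n + 1), (fun m s => Pi' m s * al (n - m)) m s) s := rfl
    rw [this, P_add, ← P_sum]
    congr 1
    exact sum_congr rfl (fun m _ => P_mul_const _ _ _)
  rw [e]
  unfold RR
  congr 1
  · unfold P; simp only [step_even_level h]; ring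
  · exact sum_congr rfl (fun m _ => by rw [Pi_even h])

theorem RR_odd_zero {s : ℕ × ℤ} (h : s.2 % 2 = 1) : RR 0 s = 1 := by
  unfold RR
  rw [sum_range_one, Pi_zero_odd h, show al (0 - 0) = 1 from rfl, mul_one, aw]
  unfold bz
  by_cases h0 : s.1 = 0
  · rw [if_pos h0, if_pos ⟨h0, h⟩, zero_add]
  · rw [if_neg h0, if_neg (fun h' => h0 h'.1), add_zero]

theorem RR_odd_succ (n : ℕ) {s : ℕ × ℤ} (h : s.2 % 2 = 1) : RR (n + 1) s = P (RR n) s := by
  have e : P (RR n) s = P (fun s => aw n s.1) s + ∑ m ∈ range (n + 1), P (Pi' m) s * al (n - m) := by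
    have : RR n = fun s => (fun s : ℕ × ℤ => aw n s.1) s +
      (fun s => ∑ m ∈ range (n + 1), (fun m s => Pi' m s * al (n - m)) m s) s := rfl
    rw [this, P_add, ← P_sum]
    congr 1
    exact sum_congr rfl (fun m _ => P_mul_const _ _ _)
  rw [e]
  unfold RR
  rw [sum_range_succ']
  have e1 : ∑ m ∈ range (n + 1), Pi' (m + 1) s * al (n + 1 - (m + 1)) =
      ∑ m ∈ range (n + 1), P (Pi' m) s * al (n - m) := by
    apply sum_congr rfl
    intro m _
    rw [Pi_odd h, Nat.add_sub_add_right]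
  rw [e1, Pi_zero_odd h, show al (n + 1 - 0) = aw n 1 from rfl]
  obtain ⟨i, r⟩ := s
  simp only at h
  unfold P bz
  rcases i with _ | j
  · rw [step_0f h, step_0t h, if_pos ⟨rfl, h⟩, aw_zero]; ring
  · rw [step_sf h, step_st h, if_neg (by simp)]
    rw [show aw (n + 1) ((j + 1, r) : ℕ × ℤ).1 = (aw n j + aw n (j + 2)) / 2 from rfl]
    ring

theorem RR_o (n : ℕ) : RR n (0, 0) = 0 := by
  unfold RR
  rw [aw_zero, zero_add]
  apply sum_eq_zero
  intro m _
  rw [Pi_o, zero_mul]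

/-- THE RENEWAL IDENTITY -/
theorem Di_eq : ∀ (n : ℕ) (s : ℕ × ℤ), Di (n + 1) s = RR n s := by
  have hb : ∀ (n : ℕ) (s : ℕ × ℤ), |Di (n + 1) s - RR n s| ≤ 1 + (n + 2) := by
    intro n s
    have h1 := RR_bound n s
    have h2 : |Di (n + 1) s| ≤ 1 := by rw [abs_of_nonneg (Di_nonneg _ _)]; exact Di_le_one _ _
    calc |Di (n + 1) s - RR n s| ≤ |Di (n + 1) s| + |RR n s| := abs_sub _ _
      _ ≤ _ := by linarith
  have hev : ∀ (n : ℕ) (s : ℕ × ℤ), ¬ s.2 % 2 = 1 → Di (n + 1) s - RR n s =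
      P (fun s => Di (n + 1) s - RR n s) s := by
    intro n s h
    have e1 := Di_even (n := n) h
    have e2 := RR_even n h
    unfold P at e1 e2 ⊢
    linarith
  intro n
  induction n with
  | zero =>
    intro s
    have := unique_zero (F := fun s => Di (0 + 1) s - RR 0 s) (hb 0) (fun s h => by
      have : P (Di 0) s = 1 := by unfold P; rw [Di_zero, Di_zero]; norm_num
      rw [Di_odd h, RR_odd_zero h, this, sub_self])
      (by rw [Di_o, RR_o, sub_self]) (hev 0) s
    linarith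
  | succ n ih =>
    intro s
    have hPe : Di (n + 1) = RR n := funext ih
    have := unique_zero (F := fun s => Di (n + 1 + 1) s - RR (n + 1) s) (hb (n + 1)) (fun s h => by
      rw [Di_odd h, RR_odd_succ n h, hPe, sub_self])
      (by rw [Di_o, RR_o, sub_self]) (hev (n + 1)) s
    linarith

/-- the law of the number of disagreements -/
theorem Di_lim (r : ℤ) : Tendsto (fun n : ℕ => √ (n : ℝ) * Di n (0, r)) atTop (𝓝 (Ni bz (0, r) * cc)) := by
  have h1 := tauber (φ := fun m => Pi' m (0, r)) (β := fun n => Di (n + 1) (0, r)) (h := Ni bz (0, r))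
    (fun m => Pi_nonneg m _) (Pi_hasSum _)
    (fun a b hab => Di_anti (0, r) (Nat.add_le_add_right hab 1)) (fun n => by
      rw [Di_eq]; unfold RR; rw [aw_zero, zero_add])
  rw [← tendsto_add_atTop_iff_nat 1]
  have h2 := (sqrt_ratio 1 0).mul h1
  rw [one_mul] at h2
  refine h2.congr' ?_
  filter_upwards [eventually_gt_atTop 0] with n hn
  have p2 : 0 < √ ((n : ℕ) : ℝ) := Real.sqrt_pos.2 (by exact_mod_cast hn)
  rw [add_zero]
  field_simp

end Pool.Agent.K6.H38.CT
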