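import Mathlib
import Pool.Agent.H499R2.CO.E
import Pool.Agent.K6.H38.CT.F

set_option autoImplicit false

namespace Pool.Agent.K6.H38.CT

open Finset Filter Topology
open Pool.Agent.H499R2.CO

/-! From the chain to the integers. -/

/-- state of the pair after `k` steps -/
def stt : ℕ → ℕ × ℤ → ℤ → ℕ × ℤ
  | 0, s, _ => s
  | k + 1, s, x => stt k (step s (decide (x % 2 = 1))) (nx 1 s x)

theorem stt_succ (k : ℕ) (s : ℕ × ℤ) (x : ℤ) :
    stt (k + 1) s x = stt k (step s (decide (x % 2 = 1))) (nx 1 s x) := rfl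

/-- the function of the next state -/
def nxt (g : ℕ × ℤ → ℤ → ℝ) (s : ℕ × ℤ) (x : ℤ) : ℝ := g (step s (decide (x % 2 = 1))) (nx 1 s x)

/-- periodic modulo `2 ^ k` -/
def Pd (k : ℕ) (g : ℕ × ℤ → ℤ → ℝ) : Prop := ∀ (s : ℕ × ℤ) (x m : ℤ), g s (x + m * 2 ^ k) = g s x

/-- mean over a period -/
noncomputable def Mn (k : ℕ) (g : ℕ × ℤ → ℤ → ℝ) (s : ℕ × ℤ) : ℝ := (∑ x ∈ range (2 ^ k), g s (x : ℕ)) / 2 ^ k

theorem nx_add (k : ℕ) (s : ℕ × ℤ) (x m : ℤ) : ∃ m' : ℤ, nx 1 s (x + m * 2 ^ (k + 1)) = nx 1 s x + m' * 2 ^ k := by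
  have h2 : m * (2 : ℤ) ^ (k + 1) = 2 * (m * 2 ^ k) := by rw [pow_succ]; ring
  have hpar : (x + m * 2 ^ (k + 1)) % 2 = x % 2 := by omega
  unfold nx
  rw [hpar]
  split_ifs with h
  · refine ⟨m, ?_⟩
    have h3 : (1 * s.2) % 2 = 1 := by rw [one_mul]; exact h.2.1
    omega
  · exact Tz_add (by norm_num) k x m

theorem stt_per : ∀ (k : ℕ) (s : ℕ × ℤ) (x m : ℤ), stt k s (x + m * 2 ^ k) = stt k s x := by
  intro k
  induction k with
  | zero => intro s x m; rfl
  | succ k ih =>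
    intro s x m
    rw [stt_succ, stt_succ]
    have h2 : m * (2 : ℤ) ^ (k + 1) = 2 * (m * 2 ^ k) := by rw [pow_succ]; ring
    have hpar : (x + m * 2 ^ (k + 1)) % 2 = x % 2 := by omega
    obtain ⟨m', hm'⟩ := nx_add k s x m
    rw [hpar, hm', ih]

theorem stt_per' {j k : ℕ} (h : j ≤ k) (s : ℕ × ℤ) (x m : ℤ) : stt j s (x + m * 2 ^ k) = stt j s x := by
  obtain ⟨i, rfl⟩ := Nat.exists_eq_add_of_le h
  have e : m * (2 : ℤ) ^ (j + i) = (m * 2 ^ i) * 2 ^ j := by rw [pow_add]; ring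
  rw [e, stt_per]

theorem Mn_congr {k : ℕ} {g g' : ℕ × ℤ → ℤ → ℝ} {s : ℕ × ℤ} (h : ∀ x : ℤ, g s x = g' s x) :
    Mn k g s = Mn k g' s := by
  unfold Mn
  congr 1
  exact sum_congr rfl (fun x _ => h x)

theorem Mn_const (k : ℕ) (c : ℝ) (s : ℕ × ℤ) : Mn k (fun _ _ => c) s = c := by
  unfold Mn
  rw [sum_const, card_range, nsmul_eq_mul]
  push_cast
  field_simp

theorem Mn_nxt {k : ℕ} {g : ℕ × ℤ → ℤ → ℝ} (hg : Pd k g) (s : ℕ × ℤ) :
    Mn (k + 1) (nxt g) s = P (Mn k g) s := by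
  unfold Mn P
  rw [pow_succ 2 k, mul_comm (2 ^ k) 2, sum_two]
  have h1 : ∑ u ∈ range (2 ^ k), nxt g s ((2 * u : ℕ) : ℤ) = ∑ u ∈ range (2 ^ k), g (step s false) (u : ℕ) := by
    apply sum_congr rfl
    intro u _
    have hx : ((2 * u : ℕ) : ℤ) % 2 = 0 := by push_cast; omega
    have hn : nx 1 s ((2 * u : ℕ) : ℤ) = u := by
      unfold nx
      rw [if_neg (by omega)]
      unfold Tz
      rw [if_pos hx]; push_cast; omega
    have hdec : decide (((2 * u : ℕ) : ℤ) % 2 = 1) = false := by rw [hx]; rfl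
    unfold nxt
    rw [hdec, hn]
  have h2 : ∑ u ∈ range (2 ^ k), nxt g s ((2 * u + 1 : ℕ) : ℤ) = ∑ u ∈ range (2 ^ k), g (step s true) (u : ℕ) := by
    have hP : ∀ x m : ℤ, (fun x : ℤ => g (step s true) x) (x + m * 2 ^ k)
        = (fun x : ℤ => g (step s true) x) x := fun x m => hg _ _ _
    have hpar : ∀ u : ℕ, ((2 * u + 1 : ℕ) : ℤ) % 2 = 1 := by intro u; push_cast; omega
    by_cases hsw : s.1 = 0 ∧ s.2 % 2 = 1
    · refine Eq.trans ?_ (sum_affine k (fun x : ℤ => g (step s true) x)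
        hP (a := 1) (by norm_num) ((1 + s.2) / 2))
      apply sum_congr rfl
      intro u _
      have hn : nx 1 s ((2 * u + 1 : ℕ) : ℤ) = 1 * u + (1 + s.2) / 2 := by
        unfold nx
        rw [if_pos ⟨hsw.1, hsw.2, hpar u⟩]
        have := hsw.2
        push_cast; omega
      have hdec : decide (((2 * u + 1 : ℕ) : ℤ) % 2 = 1) = true := by rw [hpar]; rfl
      unfold nxt
      rw [hdec, hn]
    · refine Eq.trans ?_ (sum_affine k (fun x : ℤ => g (step s true) x)
        hP (a := 3) (by norm_num) 2)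
      apply sum_congr rfl
      intro u _
      have hn : nx 1 s ((2 * u + 1 : ℕ) : ℤ) = 3 * u + 2 := by
        unfold nx
        rw [if_neg (fun h' => hsw ⟨h'.1, h'.2.1⟩)]
        unfold Tz
        rw [if_neg (by rw [hpar]; norm_num)]; push_cast; omega
      have hdec : decide (((2 * u + 1 : ℕ) : ℤ) % 2 = 1) = true := by rw [hpar]; rfl
      unfold nxt
      rw [hdec, hn]
  rw [h1, h2, pow_succ 2 k]
  field_simp

theorem Pd_nxt {k : ℕ} {g : ℕ × ℤ → ℤ → ℝ} (hg : Pd k g) : Pd (k + 1) (nxt g) := by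
  intro s x m
  have h2 : m * (2 : ℤ) ^ (k + 1) = 2 * (m * 2 ^ k) := by rw [pow_succ]; ring
  have hpar : (x + m * 2 ^ (k + 1)) % 2 = x % 2 := by omega
  obtain ⟨m', hm'⟩ := nx_add k s x m
  unfold nxt
  rw [hpar, hm', hg]

/-- functions of the state -/
theorem Mn_state (F : ℕ × ℤ → ℝ) : ∀ (k : ℕ) (s : ℕ × ℤ), Mn k (fun s x => F (stt k s x)) s = (P^[k] F) s := by
  intro k
  induction k with
  | zero => intro s; simp [Mn, stt]
  | succ k ih =>
    intro s
    rw [Function.iterate_succ_apply', ← (funext ih : (fun s => Mn k (fun s x => F (stt k s x)) s) = P^[k] F)]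
    rw [← Mn_nxt (fun s x m => by simp only [stt_per])]
    rfl

/-- number of odd differences -/
def ds (k : ℕ) (s : ℕ × ℤ) (x : ℤ) : ℕ := #{j ∈ range k | (stt j s x).2 % 2 = 1}

theorem ds_zero (s : ℕ × ℤ) (x : ℤ) : ds 0 s x = 0 := by simp [ds]

theorem ds_succ (k : ℕ) (s : ℕ × ℤ) (x : ℤ) : ds (k + 1) s x =
    ds k (step s (decide (x % 2 = 1))) (nx 1 s x) + if s.2 % 2 = 1 then 1 else 0 := by
  unfold ds
  rw [card_filter, card_filter, sum_range_succ']
  rfl

open Classical in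
/-- indicator of the hitting of the level `m` -/
noncomputable def gh (m k : ℕ) (s : ℕ × ℤ) (x : ℤ) : ℝ := if ∃ j ≤ k, m ≤ (stt j s x).1 then 1 else 0

open Classical in
/-- indicator of at least `n` disagreements -/
noncomputable def gd (n k : ℕ) (s : ℕ × ℤ) (x : ℤ) : ℝ := if n ≤ ds k s x then 1 else 0

theorem gh_per (m k : ℕ) : Pd k (gh m k) := by
  intro s x a
  unfold gh
  have : (∃ j ≤ k, m ≤ (stt j s (x + a * 2 ^ k)).1) ↔ ∃ j ≤ k, m ≤ (stt j s x).1 := by
    refine exists_congr fun j => and_congr_right fun hj => ?_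
    rw [stt_per' hj]
  simp only [this]

theorem ds_per (k : ℕ) (s : ℕ × ℤ) (x a : ℤ) : ds k s (x + a * 2 ^ k) = ds k s x := by
  unfold ds
  congr 1
  apply filter_congr
  intro j hj
  rw [mem_range] at hj
  rw [stt_per' hj.le]

theorem gd_per (n k : ℕ) : Pd k (gd n k) := by
  intro s x a
  unfold gd
  rw [ds_per]

theorem Mn_gh (m : ℕ) : ∀ (k : ℕ) (s : ℕ × ℤ), Mn k (gh m k) s = AA m k s := by
  intro k
  induction k with
  | zero =>
    intro s
    rw [AA]
    unfold Mn gh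
    rw [pow_zero, pow_zero, sum_range_one, div_one]
    by_cases h : s.1 < m
    · rw [if_pos h, if_neg]
      rintro ⟨j, hj, hm⟩
      rw [Nat.le_zero.1 hj] at hm
      exact absurd hm (not_le.2 h)
    · rw [if_neg h, if_pos ⟨0, le_rfl, not_lt.1 h⟩]
  | succ k ih =>
    intro s
    rw [AA]
    by_cases h : s.1 < m
    · rw [if_pos h, ← (funext ih : (fun s => Mn k (gh m k) s) = AA m k), ← Mn_nxt (gh_per m k)]
      apply Mn_congr
      intro x
      unfold nxt gh
      have : (∃ j ≤ k + 1, m ≤ (stt j s x).1) ↔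
          ∃ j ≤ k, m ≤ (stt j (step s (decide (x % 2 = 1))) (nx 1 s x)).1 := by
        constructor
        · rintro ⟨j, hj, hm⟩
          rcases j with _ | j
          · exact absurd hm (not_le.2 h)
          · exact ⟨j, by omega, hm⟩
        · rintro ⟨j, hj, hm⟩
          exact ⟨j + 1, by omega, hm⟩
      simp only [this]
    · rw [if_neg h, ← Mn_const (k + 1) 1 s]
      apply Mn_congr
      intro x
      unfold gh
      rw [if_pos ⟨0, Nat.zero_le _, not_lt.1 h⟩]

theorem Mn_gd : ∀ (k n : ℕ) (s : ℕ × ℤ), Mn k (gd n k) s = DD k n s := by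
  intro k
  induction k with
  | zero =>
    intro n s
    unfold Mn gd
    rw [pow_zero, pow_zero, sum_range_one, div_one, ds_zero]
    rcases n with _ | n
    · rw [if_pos (Nat.zero_le _), DD]
    · rw [if_neg (by omega), DD]
  | succ k ih =>
    intro n s
    rcases n with _ | n
    · rw [DD, ← Mn_const (k + 1) 1 s]
      apply Mn_congr
      intro x
      unfold gd
      rw [if_pos (Nat.zero_le _)]
    · by_cases h : s.2 % 2 = 1
      · rw [DD_odd h, ← (funext (ih n) : (fun s => Mn k (gd n k) s) = DD k n), ← Mn_nxt (gd_per n k)]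
        apply Mn_congr
        intro x
        unfold nxt gd
        rw [ds_succ, if_pos h]
        simp only [Nat.add_le_add_iff_right]
      · rw [DD_even h, ← (funext (ih (n + 1)) : (fun s => Mn k (gd (n + 1) k) s) = DD k (n + 1)),
          ← Mn_nxt (gd_per (n + 1) k)]
        apply Mn_congr
        intro x
        unfold nxt gd
        rw [ds_succ, if_neg h, add_zero]

theorem stt_absorb : ∀ (k : ℕ) (x : ℤ), stt k (0, 0) x = (0, 0) := by
  intro k
  induction k with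
  | zero => intro x; rfl
  | succ k ih => intro x; rw [stt_succ, step_o, ih]

theorem surv_iff : ∀ (k : ℕ) (s : ℕ × ℤ) (x : ℤ), surv 1 k s x ↔ stt k s x ≠ (0, 0) := by
  intro k
  induction k with
  | zero => intro s x; rfl
  | succ k ih =>
    intro s x
    rw [surv_succ, ih, ← stt_succ]
    constructor
    · exact fun h => h.2
    · intro h
      refine ⟨?_, h⟩
      rintro rfl
      exact h (stt_absorb _ _)

theorem stt_later {k s} {x : ℤ} (h : stt k s x = (0, 0)) : ∀ j : ℕ, stt (k + j) s x = (0, 0) := by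
  induction k generalizing s x with
  | zero => intro j; rw [show s = (0, 0) from h, stt_absorb]
  | succ k ih =>
    intro j
    rw [show k + 1 + j = (k + j) + 1 by ring, stt_succ]
    exact ih h j

/-- number of odd terms among the first `k` -/
def od (k : ℕ) (x : ℤ) : ℕ := #{j ∈ range k | (Tz 1)^[j] x % 2 = 1}

theorem od_succ (k : ℕ) (x : ℤ) : od (k + 1) x = od k (Tz 1 x) + if x % 2 = 1 then 1 else 0 := by
  unfold od
  rw [card_filter, card_filter, sum_range_succ']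
  rfl

theorem od_le (k : ℕ) (x : ℤ) : od k x ≤ k := by
  unfold od
  refine (card_filter_le _ _).trans ?_
  rw [card_range]

/-- the pair and its state -/
theorem pair_run : ∀ (k i : ℕ) (r x : ℤ),
    ((Tz 1)^[k] (3 ^ i * x + r) = 3 ^ (stt k (i, r) x).1 * (Tz 1)^[k] x + (stt k (i, r) x).2 ∧
      ((stt k (i, r) x).1 : ℤ) = i + od k (3 ^ i * x + r) - od k x) ∨
    ((Tz 1)^[k] x = 3 ^ (stt k (i, r) x).1 * (Tz 1)^[k] (3 ^ i * x + r) + (stt k (i, r) x).2 ∧
      ((stt k (i, r) x).1 : ℤ) = -(i + od k (3 ^ i * x + r) - od k x)) := by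
  intro k
  induction k with
  | zero => intro i r x; left; simp [stt, od]
  | succ k ih =>
    intro i r x
    have ho : ∀ z : ℤ, ((od (k + 1) z : ℕ) : ℤ) = od k (Tz 1 z) + z % 2 := by
      intro z
      rw [od_succ]
      rcases Int.emod_two_eq_zero_or_one z with h | h
      · rw [if_neg (by omega)]; push_cast; omega
      · rw [if_pos h]; push_cast; omega
    rw [Function.iterate_succ_apply, Function.iterate_succ_apply, stt_succ, ho, ho]
    rcases pair_step (d := 1) (by norm_num) i r x with ⟨e1, e2, e3⟩ | ⟨e1, e2, e3, e4, e5, e6⟩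
    · rw [one_mul, one_mul] at e2
      rw [one_mul] at e3
      have h := ih (step (i, r) (decide (x % 2 = 1))).1 (step (i, r) (decide (x % 2 = 1))).2 (Tz 1 x)
      rw [e2] at h
      simp only [Prod.mk.eta] at h
      rw [e1]
      rcases h with ⟨h1, h2⟩ | ⟨h1, h2⟩
      · left; exact ⟨h1, by omega⟩
      · right; exact ⟨h1, by omega⟩
    · rw [one_mul] at e1 e2 e6
      rw [one_mul] at e2
      have h := ih (step (i, r) (decide (x % 2 = 1))).1 (step (i, r) (decide (x % 2 = 1))).2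
        (Tz 1 (3 ^ i * x + r))
      rw [e2] at h
      simp only [Prod.mk.eta] at h
      rw [e1]
      rcases h with ⟨h1, h2⟩ | ⟨h1, h2⟩
      · right; exact ⟨h1, by omega⟩
      · left; exact ⟨h1, by omega⟩

theorem lev_eq (k : ℕ) (r x : ℤ) : ((stt k (0, r) x).1 : ℤ) = |(od k (x + r) : ℤ) - od k x| := by
  have h := pair_run k 0 r x
  rw [pow_zero, one_mul] at h
  push_cast at h
  rcases h with ⟨_, h⟩ | ⟨_, h⟩
  · rw [abs_of_nonneg (by omega)]; omega
  · rw [abs_of_nonpos (by omega)]; omega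

theorem par_eq (k : ℕ) (r x : ℤ) : (stt k (0, r) x).2 % 2 = 1 ↔
    (Tz 1)^[k] x % 2 ≠ (Tz 1)^[k] (x + r) % 2 := by
  have h := pair_run k 0 r x
  rw [pow_zero, one_mul] at h
  obtain ⟨p, hp⟩ : ∃ p, (3 : ℤ) ^ (stt k (0, r) x).1 = 2 * p + 1 :=
    ⟨3 ^ (stt k (0, r) x).1 / 2, by have := odd3 (stt k (0, r) x).1; omega⟩
  rw [hp] at h
  rcases h with ⟨h, _⟩ | ⟨h, _⟩
  · have e : (2 * p + 1) * (Tz 1)^[k] x = 2 * (p * (Tz 1)^[k] x) + (Tz 1)^[k] x := by ring
    rw [e] at h
    omega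
  · have e : (2 * p + 1) * (Tz 1)^[k] (x + r) = 2 * (p * (Tz 1)^[k] (x + r)) + (Tz 1)^[k] (x + r) := by ring
    rw [e] at h
    omega

theorem coal_of {k : ℕ} {r x : ℤ} (h : stt k (0, r) x = (0, 0)) : (Tz 1)^[k] x = (Tz 1)^[k] (x + r) := by
  have h1 := pair_run k 0 r x
  rw [pow_zero, one_mul, h] at h1
  rcases h1 with ⟨h1, _⟩ | ⟨h1, _⟩
  · simpa using h1.symm
  · simpa using h1

theorem formula : ∀ (k : ℕ) (x : ℤ), ∃ β : ℤ, 0 ≤ β ∧ β ≤ 3 ^ k ∧ 2 ^ k * (Tz 1)^[k] x = 3 ^ od k x * x + β := by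
  intro k
  induction k with
  | zero => intro x; exact ⟨0, le_rfl, by norm_num, by simp [od]⟩
  | succ k ih =>
    intro x
    obtain ⟨β, h0, h1, h2⟩ := ih (Tz 1 x)
    have h3 : (3 : ℤ) ^ od k (Tz 1 x) ≤ 3 ^ k := pow_le_pow_right₀ (by norm_num) (od_le _ _)
    have h4 : (0 : ℤ) < 3 ^ od k (Tz 1 x) := by positivity
    rw [Function.iterate_succ_apply, od_succ]
    rcases Int.emod_two_eq_zero_or_one x with h | h
    · refine ⟨2 * β, by omega, ?_, ?_⟩
      · rw [pow_succ]; omega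
      · rw [if_neg (by omega), add_zero]
        have e : 2 * Tz 1 x = x := by unfold Tz; rw [if_pos h]; omega
        calc 2 ^ (k + 1) * (Tz 1)^[k] (Tz 1 x) = 2 * (2 ^ k * (Tz 1)^[k] (Tz 1 x)) := by ring
          _ = 3 ^ od k (Tz 1 x) * (2 * Tz 1 x) + 2 * β := by rw [h2]; ring
          _ = _ := by rw [e]
    · refine ⟨2 * β + 3 ^ od k (Tz 1 x), by omega, ?_, ?_⟩
      · rw [pow_succ]; omega
      · rw [if_pos h]
        have e : 2 * Tz 1 x = 3 * x + 1 := by unfold Tz; rw [if_neg (by omega)]; omega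
        calc 2 ^ (k + 1) * (Tz 1)^[k] (Tz 1 x) = 2 * (2 ^ k * (Tz 1)^[k] (Tz 1 x)) := by ring
          _ = 3 ^ od k (Tz 1 x) * (2 * Tz 1 x) + 2 * β := by rw [h2]; ring
          _ = _ := by rw [e]; ring

/-- merging of large integers is visible in the chain -/
theorem merged {k : ℕ} {r x : ℤ} (hx : 3 ^ k * (|r| + 1) < |x|) (h : (Tz 1)^[k] x = (Tz 1)^[k] (x + r)) :
    stt k (0, r) x = (0, 0) := by
  obtain ⟨β, b0, b1, b2⟩ := formula k x
  obtain ⟨γ, c0, c1, c2⟩ := formula k (x + r)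
  have hod : od k x = od k (x + r) := by
    by_contra hne
    rw [h, c2] at b2
    have h1 : ((3 : ℤ) ^ od k x - 3 ^ od k (x + r)) * x = 3 ^ od k (x + r) * r + γ - β := by linarith
    have h2 : (1 : ℤ) ≤ |(3 : ℤ) ^ od k x - 3 ^ od k (x + r)| := by
      apply Int.one_le_abs
      intro h0
      apply hne
      have : (3 : ℤ) ^ od k x = 3 ^ od k (x + r) := by linarith
      exact Int.pow_right_injective (by norm_num) this
    have h3 : |x| ≤ |((3 : ℤ) ^ od k x - 3 ^ od k (x + r)) * x| := by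
      rw [abs_mul]; nlinarith [abs_nonneg x]
    have h4 : |3 ^ od k (x + r) * r + γ - β| ≤ 3 ^ k * |r| + 3 ^ k := by
      have e1 : |(3 : ℤ) ^ od k (x + r) * r| ≤ 3 ^ k * |r| := by
        rw [abs_mul, abs_of_pos (by positivity)]
        exact mul_le_mul_of_nonneg_right (pow_le_pow_right₀ (by norm_num) (od_le _ _)) (abs_nonneg _)
      have e2 : |γ - β| ≤ 3 ^ k := by rw [abs_le]; constructor <;> linarith
      have e3 : 3 ^ od k (x + r) * r + γ - β = 3 ^ od k (x + r) * r + (γ - β) := by ring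
      rw [e3]
      exact (abs_add_le _ _).trans (by linarith)
    rw [h1] at h3
    linarith
  have hl := lev_eq k r x
  rw [hod, sub_self, abs_zero] at hl
  have hl0 : (stt k (0, r) x).1 = 0 := by exact_mod_cast hl
  have h1 := pair_run k 0 r x
  rw [pow_zero, one_mul, hl0, pow_zero, one_mul, one_mul, h] at h1
  have h2 : (stt k (0, r) x).2 = 0 := by
    rcases h1 with ⟨h1, _⟩ | ⟨h1, _⟩ <;> linarith
  exact Prod.ext hl0 h2

end Pool.Agent.K6.H38.CT
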