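import Mathlib
import Pool.Agent.K6.H38.CT.G

set_option autoImplicit false

namespace Pool.Agent.K6.H38.CT

open Finset Filter Topology
open Pool.Agent.H499R2.CO

/-! Densities. -/

/-- `S` has natural density `δ` among the positive and among the negative integers. -/
def HDn (S : Set ℤ) (δ : ℝ) : Prop := ∀ s : ℤ, s = 1 ∨ s = -1 →
  Tendsto (fun N : ℕ => ({n : ℕ | 1 ≤ n ∧ n ≤ N ∧ s * n ∈ S}.ncard : ℝ) / N) atTop (𝓝 δ)

open Classical in
/-- indicator -/
noncomputable def ind (S : Set ℤ) (x : ℤ) : ℝ := if x ∈ S then 1 else 0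

theorem ind_nonneg (S : Set ℤ) (x : ℤ) : 0 ≤ ind S x := by unfold ind; split_ifs <;> norm_num

theorem ind_le_one (S : Set ℤ) (x : ℤ) : ind S x ≤ 1 := by unfold ind; split_ifs <;> norm_num

theorem ncard_sum (S : Set ℤ) (s : ℤ) (N : ℕ) :
    ({n : ℕ | 1 ≤ n ∧ n ≤ N ∧ s * n ∈ S}.ncard : ℝ) = ∑ j ∈ range N, ind S (s * j + s) := by
  classical
  have h : {n : ℕ | 1 ≤ n ∧ n ≤ N ∧ s * n ∈ S} = ((Ico 1 (N + 1)).filter (fun n : ℕ => s * n ∈ S) : Finset ℕ) := by
    ext n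
    simp only [Set.mem_ofPred_eq, coe_filter, mem_Ico]
    constructor
    · rintro ⟨h1, h2, h3⟩; exact ⟨⟨h1, by omega⟩, h3⟩
    · rintro ⟨⟨h1, h2⟩, h3⟩; exact ⟨h1, by omega, h3⟩
  rw [h, Set.ncard_coe_finset, card_filter, sum_Ico_eq_sum_range]
  push_cast
  apply sum_congr rfl
  intro j _
  unfold ind
  rw [show s * (1 + (j : ℤ)) = s * j + s by ring]

theorem count_block {k : ℕ} {g : ℤ → ℝ} (hper : ∀ x m : ℤ, g (x + m * 2 ^ k) = g x) {e : ℝ}
    (hsum : ∑ x ∈ range (2 ^ k), g (x : ℕ) = 2 ^ k * e) {s : ℤ} (hs : s % 2 = 1) (q : ℕ) :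
    ∑ j ∈ range (q * 2 ^ k), g (s * (j : ℕ) + s) = q * (2 ^ k * e) := by
  induction q with
  | zero => simp
  | succ q ih =>
    rw [show (q + 1) * 2 ^ k = q * 2 ^ k + 2 ^ k by ring, sum_range_add, ih]
    have : ∑ x ∈ range (2 ^ k), g (s * ((q * 2 ^ k + x : ℕ) : ℤ) + s) = ∑ x ∈ range (2 ^ k), g (s * (x : ℕ) + s) := by
      apply sum_congr rfl
      intro x _
      have e : s * ((q * 2 ^ k + x : ℕ) : ℤ) + s = (s * x + s) + (s * q) * 2 ^ k := by push_cast; ring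
      rw [e, hper]
    rw [this, sum_affine k g hper hs s, hsum]
    push_cast; ring

theorem count_per {k : ℕ} {g : ℤ → ℝ} (hg0 : ∀ x, 0 ≤ g x) (hper : ∀ x m : ℤ, g (x + m * 2 ^ k) = g x) {e : ℝ}
    (hsum : ∑ x ∈ range (2 ^ k), g (x : ℕ) = 2 ^ k * e) {s : ℤ} (hs : s % 2 = 1) (N : ℕ) :
    N * e - 2 ^ k * e ≤ ∑ j ∈ range N, g (s * (j : ℕ) + s) ∧
      ∑ j ∈ range N, g (s * (j : ℕ) + s) ≤ N * e + 2 ^ k * e := by
  have hpos : 0 < 2 ^ k := by positivity
  have he : 0 ≤ e := by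
    have h1 : 0 ≤ ∑ x ∈ range (2 ^ k), g (x : ℕ) := sum_nonneg (fun x _ => hg0 _)
    rw [hsum] at h1
    exact nonneg_of_mul_nonneg_right h1 (by positivity)
  set q := N / 2 ^ k with hq
  have h1 : q * 2 ^ k ≤ N := Nat.div_mul_le_self _ _
  have h2 : N ≤ (q + 1) * 2 ^ k := by
    have := Nat.lt_div_mul_add (a := N) hpos
    rw [add_mul, one_mul]; exact this.le
  have h1r : (q : ℝ) * 2 ^ k ≤ N := by exact_mod_cast h1
  have h2r : (N : ℝ) ≤ (q + 1) * 2 ^ k := by exact_mod_cast h2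
  have b1 := count_block hper hsum hs q
  have b2 := count_block hper hsum hs (q + 1)
  have c1 : ∑ j ∈ range (q * 2 ^ k), g (s * (j : ℕ) + s) ≤ ∑ j ∈ range N, g (s * (j : ℕ) + s) := by
    apply sum_le_sum_of_subset_of_nonneg
    · intro x hx; rw [mem_range] at *; omega
    · intro x _ _; exact hg0 _
  have c2 : ∑ j ∈ range N, g (s * (j : ℕ) + s) ≤ ∑ j ∈ range ((q + 1) * 2 ^ k), g (s * (j : ℕ) + s) := by
    apply sum_le_sum_of_subset_of_nonneg
    · intro x hx; rw [mem_range] at *; omega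
    · intro x _ _; exact hg0 _
  rw [b1] at c1
  rw [b2] at c2
  push_cast at c2
  have d1 := mul_le_mul_of_nonneg_right h1r he
  have d2 := mul_le_mul_of_nonneg_right h2r he
  constructor <;> nlinarith

theorem tendsto_of_crit {u : ℕ → ℝ} {l : ℝ} (h : ∀ ε : ℝ, 0 < ε → ∃ K : ℝ, ∀ N : ℕ, |u N - l * N| ≤ ε * N + K) :
    Tendsto (fun N : ℕ => u N / N) atTop (𝓝 l) := by
  rw [Metric.tendsto_atTop]
  intro ε hε
  obtain ⟨K, hK⟩ := h (ε / 2) (by positivity)
  obtain ⟨N0, hN0⟩ := exists_nat_gt (2 * |K| / ε + 1)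
  refine ⟨N0, fun N hN => ?_⟩
  have hNr : 2 * |K| / ε + 1 < N := lt_of_lt_of_le hN0 (by exact_mod_cast hN)
  have hNpos : (0 : ℝ) < N := lt_of_le_of_lt (by positivity) hNr
  have h4 : |K| < ε / 2 * N := by
    have : 2 * |K| / ε < N := by linarith
    rw [div_lt_iff₀ hε] at this
    linarith
  have h5 := hK N
  have e : u N / N - l = (u N - l * N) / N := by field_simp
  rw [Real.dist_eq, e, abs_div, abs_of_pos hNpos, div_lt_iff₀ hNpos]
  have := le_abs_self K
  linarith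

theorem small_sum {s : ℤ} (hs : s = 1 ∨ s = -1) (B : ℕ) (N : ℕ) :
    ∑ j ∈ range N, ind {x | |x| ≤ (B : ℤ)} (s * (j : ℕ) + s) ≤ B := by
  classical
  have h1 : ∀ j : ℕ, ind {x | |x| ≤ (B : ℤ)} (s * (j : ℕ) + s) = if j < B then 1 else 0 := by
    intro j
    unfold ind
    have : s * (j : ℤ) + s ∈ {x : ℤ | |x| ≤ (B : ℤ)} ↔ j < B := by
      rw [Set.mem_ofPred_eq]
      rcases hs with rfl | rfl
      · rw [abs_of_nonneg (by positivity)]; omega
      · rw [abs_of_nonpos (by omega)]; omega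
    simp only [this]
  rw [sum_congr rfl (fun j _ => h1 j), ← sum_filter, sum_const, nsmul_eq_mul, mul_one]
  have : #{j ∈ range N | j < B} ≤ B := by
    calc #{j ∈ range N | j < B} ≤ #(range B) := by
          apply card_le_card
          intro j hj
          rw [mem_filter] at hj
          rw [mem_range]; exact hj.2
      _ = B := card_range B
  exact_mod_cast this

/-- Sandwich by periodic functions. -/
theorem dens {S : Set ℤ} {l : ℝ} (E R : ℕ → ℤ → ℝ) (p : ℕ → ℕ) (e ρ : ℕ → ℝ) (B : ℕ → ℕ)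
    (hE0 : ∀ k x, 0 ≤ E k x) (hE1 : ∀ k x, E k x ≤ 1) (hR0 : ∀ k x, 0 ≤ R k x)
    (hEp : ∀ (k : ℕ) (x m : ℤ), E k (x + m * 2 ^ p k) = E k x)
    (hRp : ∀ (k : ℕ) (x m : ℤ), R k (x + m * 2 ^ p k) = R k x)
    (hEs : ∀ k, ∑ x ∈ range (2 ^ p k), E k (x : ℕ) = 2 ^ p k * e k)
    (hRs : ∀ k, ∑ x ∈ range (2 ^ p k), R k (x : ℕ) = 2 ^ p k * ρ k)
    (hlow : ∀ (k : ℕ) (x : ℤ), (B k : ℤ) < |x| → E k x ≤ ind S x)
    (hup : ∀ (k : ℕ) (x : ℤ), (B k : ℤ) < |x| → ind S x ≤ E k x + R k x)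
    (he : Tendsto e atTop (𝓝 l)) (hρ : Tendsto ρ atTop (𝓝 0)) : HDn S l := by
  intro s hs
  have hs2 : s % 2 = 1 := by rcases hs with rfl | rfl <;> norm_num
  refine (tendsto_of_crit (u := fun N => ∑ j ∈ range N, ind S (s * (j : ℕ) + s)) ?_).congr
    (fun N => by rw [ncard_sum])
  intro ε hε
  obtain ⟨k, hk1, hk2⟩ := ((Metric.tendsto_nhds.1 he (ε / 2) (by positivity)).and
    (Metric.tendsto_nhds.1 hρ (ε / 2) (by positivity))).exists
  rw [Real.dist_eq] at hk1 hk2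
  rw [sub_zero] at hk2
  refine ⟨2 ^ p k * |e k| + 2 ^ p k * |ρ k| + B k, fun N => ?_⟩
  have c1 := count_per (hE0 k) (hEp k) (hEs k) hs2 N
  have c2 := count_per (hR0 k) (hRp k) (hRs k) hs2 N
  have c3 := small_sum hs (B k) N
  have hlow' : ∀ x : ℤ, E k x ≤ ind S x + ind {x | |x| ≤ (B k : ℤ)} x := by
    intro x
    by_cases hx : (B k : ℤ) < |x|
    · have := hlow k x hx
      have := ind_nonneg {x | |x| ≤ (B k : ℤ)} x
      linarith
    · have h1 : ind {x | |x| ≤ (B k : ℤ)} x = 1 := by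
        unfold ind
        rw [if_pos (by rw [Set.mem_ofPred_eq]; exact not_lt.1 hx)]
      have := hE1 k x
      have := ind_nonneg S x
      linarith
  have hup' : ∀ x : ℤ, ind S x ≤ E k x + R k x + ind {x | |x| ≤ (B k : ℤ)} x := by
    intro x
    by_cases hx : (B k : ℤ) < |x|
    · have := hup k x hx
      have := ind_nonneg {x | |x| ≤ (B k : ℤ)} x
      linarith
    · have h1 : ind {x | |x| ≤ (B k : ℤ)} x = 1 := by
        unfold ind
        rw [if_pos (by rw [Set.mem_ofPred_eq]; exact not_lt.1 hx)]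
      have := hE0 k x
      have := hR0 k x
      have := ind_le_one S x
      linarith
  have d1 : ∑ j ∈ range N, E k (s * (j : ℕ) + s) ≤
      ∑ j ∈ range N, ind S (s * (j : ℕ) + s) + ∑ j ∈ range N, ind {x | |x| ≤ (B k : ℤ)} (s * (j : ℕ) + s) := by
    rw [← sum_add_distrib]
    exact sum_le_sum (fun j _ => hlow' _)
  have d2 : ∑ j ∈ range N, ind S (s * (j : ℕ) + s) ≤
      ∑ j ∈ range N, E k (s * (j : ℕ) + s) + ∑ j ∈ range N, R k (s * (j : ℕ) + s)
        + ∑ j ∈ range N, ind {x | |x| ≤ (B k : ℤ)} (s * (j : ℕ) + s) := by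
    rw [← sum_add_distrib, ← sum_add_distrib]
    exact sum_le_sum (fun j _ => hup' _)
  have hN : (0 : ℝ) ≤ N := by positivity
  rw [abs_lt] at hk1 hk2
  have a1 := le_abs_self (e k)
  have a2 := le_abs_self (ρ k)
  have hp : (0 : ℝ) < 2 ^ p k := by positivity
  have a3 := mul_le_mul_of_nonneg_left a1 hp.le
  have a4 := mul_le_mul_of_nonneg_left a2 hp.le
  have a5 : (0 : ℝ) ≤ 2 ^ p k * |ρ k| := by positivity
  rw [abs_le]
  constructor
  · nlinarith
  · nlinarith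

theorem sum_of_Mn {k : ℕ} {g : ℕ × ℤ → ℤ → ℝ} {s : ℕ × ℤ} {e : ℝ} (h : Mn k g s = e) :
    ∑ x ∈ range (2 ^ k), g s (x : ℕ) = 2 ^ k * e := by
  rw [← h]
  unfold Mn
  field_simp

open Classical in
/-- the pair has not coalesced: indicator -/
noncomputable def gn (k : ℕ) (s : ℕ × ℤ) (x : ℤ) : ℝ := if stt k s x = (0, 0) then 0 else 1

theorem Mn_gn (k : ℕ) (s : ℕ × ℤ) : Mn k (gn k) s = q step (0, 0) k s := by
  classical
  have h1 : ∀ k s, q step (0, 0) k s = (P^[k] (fun s => if s = (0, 0) then 0 else 1)) s := by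
    intro k
    induction k with
    | zero =>
      intro s
      by_cases h : s = (0, 0)
      · subst h; rw [q_o]; simp
      · rw [q_zero_ne _ _ h]; simp [h]
    | succ k ih =>
      intro s
      rw [Function.iterate_succ_apply', q_succ_eq]
      congr 1
      exact funext ih
  rw [h1, ← Mn_state]
  rfl

theorem gn_per (k : ℕ) : Pd k (gn k) := by
  intro s x m
  unfold gn
  rw [stt_per]

theorem gn_nonneg (k : ℕ) (s : ℕ × ℤ) (x : ℤ) : 0 ≤ gn k s x := by unfold gn; split_ifs <;> norm_num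

theorem dens_level (m : ℕ) (r : ℤ) : HDn {x | ∃ t : ℕ, (m : ℤ) ≤ |(od t (x + r) : ℤ) - od t x|} (Ai m (0, r)) := by
  classical
  refine dens (fun k => gh m k (0, r)) (fun k => gn k (0, r)) (fun k => k) (fun k => AA m k (0, r))
    (fun k => q step (0, 0) k (0, r)) (fun _ => 0) ?_ ?_ (fun k x => gn_nonneg k _ x)
    (fun k x a => gh_per m k _ x a) (fun k x a => gn_per k _ x a) (fun k => sum_of_Mn (Mn_gh m k _))
    (fun k => sum_of_Mn (Mn_gn k _)) ?_ ?_ (Ai_tendsto m _) (q_lim _)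
  · intro k x; unfold gh; split_ifs <;> norm_num
  · intro k x; unfold gh; split_ifs <;> norm_num
  · intro k x _
    unfold gh ind
    by_cases h : ∃ j ≤ k, m ≤ (stt j (0, r) x).1
    · rw [if_pos h, if_pos]
      obtain ⟨j, _, hj⟩ := h
      refine ⟨j, ?_⟩
      rw [← lev_eq]
      exact_mod_cast hj
    · rw [if_neg h]; split_ifs <;> norm_num
  · intro k x _
    unfold ind
    by_cases h : x ∈ {x | ∃ t : ℕ, (m : ℤ) ≤ |(od t (x + r) : ℤ) - od t x|}
    · rw [if_pos h]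
      obtain ⟨t, ht⟩ := h
      rw [← lev_eq] at ht
      have ht' : m ≤ (stt t (0, r) x).1 := by exact_mod_cast ht
      unfold gh gn
      by_cases h0 : stt k (0, r) x = (0, 0)
      · rw [if_pos h0, add_zero, if_pos]
        rcases Nat.lt_or_ge k t with h | h
        · refine ⟨0, Nat.zero_le _, ?_⟩
          obtain ⟨j, rfl⟩ := Nat.exists_eq_add_of_le h.le
          rw [stt_later h0 j] at ht'
          simp only at ht'
          omega
        · exact ⟨t, h, ht'⟩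
      · rw [if_neg h0]; split_ifs <;> norm_num
    · rw [if_neg h]
      exact add_nonneg (by unfold gh; split_ifs <;> norm_num) (gn_nonneg _ _ _)

theorem dens_dis (n : ℕ) (r : ℤ) : HDn {x | ∃ J : Finset ℕ, n ≤ #J ∧
    ∀ j ∈ J, (Tz 1)^[j] x % 2 ≠ (Tz 1)^[j] (x + r) % 2} (Di n (0, r)) := by
  classical
  have hds : ∀ (k : ℕ) (x : ℤ), ds k (0, r) x = #{j ∈ range k | (Tz 1)^[j] x % 2 ≠ (Tz 1)^[j] (x + r) % 2} := by
    intro k x
    unfold ds
    congr 1
    apply filter_congr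
    intro j _
    exact par_eq j r x
  refine dens (fun k => gd n k (0, r)) (fun k => gn k (0, r)) (fun k => k) (fun k => DD k n (0, r))
    (fun k => q step (0, 0) k (0, r)) (fun _ => 0) ?_ ?_ (fun k x => gn_nonneg k _ x)
    (fun k x a => gd_per n k _ x a) (fun k x a => gn_per k _ x a) (fun k => sum_of_Mn (Mn_gd k n _))
    (fun k => sum_of_Mn (Mn_gn k _)) ?_ ?_ (Di_tendsto n _) (q_lim _)
  · intro k x; unfold gd; split_ifs <;> norm_num
  · intro k x; unfold gd; split_ifs <;> norm_num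
  · intro k x _
    unfold gd ind
    by_cases h : n ≤ ds k (0, r) x
    · rw [if_pos h, if_pos]
      rw [hds] at h
      exact ⟨_, h, fun j hj => (mem_filter.1 hj).2⟩
    · rw [if_neg h]; split_ifs <;> norm_num
  · intro k x _
    unfold ind
    by_cases h : x ∈ {x | ∃ J : Finset ℕ, n ≤ #J ∧ ∀ j ∈ J, (Tz 1)^[j] x % 2 ≠ (Tz 1)^[j] (x + r) % 2}
    · rw [if_pos h]
      obtain ⟨J, hn, hJ⟩ := h
      unfold gd gn
      by_cases h0 : stt k (0, r) x = (0, 0)
      · rw [if_pos h0, add_zero, if_pos]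
        rw [hds]
        refine hn.trans (card_le_card ?_)
        intro j hj
        rw [mem_filter, mem_range]
        refine ⟨?_, hJ j hj⟩
        by_contra hjk
        obtain ⟨i, rfl⟩ := Nat.exists_eq_add_of_le (not_lt.1 hjk)
        have h1 := stt_later h0 i
        have h2 := (par_eq (k + i) r x).2 (hJ _ hj)
        rw [h1] at h2
        norm_num at h2
      · rw [if_neg h0]; split_ifs <;> norm_num
    · rw [if_neg h]
      exact add_nonneg (by unfold gd; split_ifs <;> norm_num) (gn_nonneg _ _ _)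

theorem dens_zero (t : ℕ) (r : ℤ) : HDn {x | od t (x + r) = od t x ∧ (Tz 1)^[t] x % 2 ≠ (Tz 1)^[t] (x + r) % 2}
    ((P^[t] bz) (0, r)) := by
  classical
  have hb : ∀ x : ℤ, bz (stt t (0, r) x) =
      ind {x | od t (x + r) = od t x ∧ (Tz 1)^[t] x % 2 ≠ (Tz 1)^[t] (x + r) % 2} x := by
    intro x
    unfold bz ind
    have h1 := lev_eq t r x
    have h2 := par_eq t r x
    have h3 : (stt t (0, r) x).1 = 0 ↔ od t (x + r) = od t x := by
      constructor
      · intro h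
        rw [h] at h1
        have := abs_eq_zero.1 h1.symm
        omega
      · intro h
        rw [h, sub_self, abs_zero] at h1
        exact_mod_cast h1
    by_cases h : od t (x + r) = od t x ∧ (Tz 1)^[t] x % 2 ≠ (Tz 1)^[t] (x + r) % 2
    · rw [if_pos (⟨h3.2 h.1, h2.2 h.2⟩ : _ ∧ _), if_pos (show x ∈ {x | od t (x + r) = od t x ∧
        (Tz 1)^[t] x % 2 ≠ (Tz 1)^[t] (x + r) % 2} from h)]
    · rw [if_neg (fun h' => h ⟨h3.1 h'.1, h2.1 h'.2⟩), if_neg (show x ∉ {x | od t (x + r) = od t x ∧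
        (Tz 1)^[t] x % 2 ≠ (Tz 1)^[t] (x + r) % 2} from h)]
  refine dens (fun _ x => bz (stt t (0, r) x)) (fun _ _ => 0) (fun _ => t) (fun _ => (P^[t] bz) (0, r))
    (fun _ => 0) (fun _ => 0) (fun _ x => bz_nonneg _) (fun _ x => bz_le_one _) (fun _ _ => le_rfl)
    (fun _ x m => by simp only [stt_per]) (fun _ _ _ => rfl)
    (fun _ => sum_of_Mn (g := fun s x => bz (stt t s x)) (Mn_state bz t (0, r))) (fun _ => by simp)
    (fun _ x _ => (hb x).le) (fun _ x _ => by rw [add_zero]; exact (hb x).ge) tendsto_const_nhds tendsto_const_nhds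

theorem dens_merge (k : ℕ) (r : ℤ) : HDn {x | (Tz 1)^[k] x ≠ (Tz 1)^[k] (x + r)} (q step (0, 0) k (0, r)) := by
  classical
  have h1 : ∀ x : ℤ, (((3 ^ k * (|r| + 1)).toNat : ℕ) : ℤ) < |x| →
      gn k (0, r) x = ind {x | (Tz 1)^[k] x ≠ (Tz 1)^[k] (x + r)} x := by
    intro x hx
    rw [Int.toNat_of_nonneg (by positivity)] at hx
    unfold gn ind
    by_cases h0 : stt k (0, r) x = (0, 0)
    · rw [if_pos h0, if_neg]
      rw [Set.mem_ofPred_eq, not_not]
      exact coal_of h0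
    · rw [if_neg h0, if_pos]
      rw [Set.mem_ofPred_eq]
      exact fun h => h0 (merged hx h)
  refine dens (fun _ => gn k (0, r)) (fun _ _ => 0) (fun _ => k) (fun _ => q step (0, 0) k (0, r))
    (fun _ => 0) (fun _ => (3 ^ k * (|r| + 1)).toNat) (fun _ x => gn_nonneg k _ x)
    (fun _ x => by unfold gn; split_ifs <;> norm_num) (fun _ _ => le_rfl)
    (fun _ x m => gn_per k _ x m) (fun _ _ _ => rfl)
    (fun _ => sum_of_Mn (Mn_gn k _)) (fun _ => by simp)
    (fun _ x hx => (h1 x hx).le) (fun _ x hx => by rw [add_zero]; exact (h1 x hx).ge)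
    tendsto_const_nhds tendsto_const_nhds

theorem HDn_mono {S S' : Set ℤ} {a b : ℝ} (h : S ⊆ S') (ha : HDn S a) (hb : HDn S' b) : a ≤ b := by
  refine le_of_tendsto_of_tendsto' (ha 1 (Or.inl rfl)) (hb 1 (Or.inl rfl)) (fun N => ?_)
  apply div_le_div_of_nonneg_right _ (by positivity)
  have : {n : ℕ | 1 ≤ n ∧ n ≤ N ∧ 1 * (n : ℤ) ∈ S}.ncard ≤ {n : ℕ | 1 ≤ n ∧ n ≤ N ∧ 1 * (n : ℤ) ∈ S'}.ncard := by
    apply Set.ncard_le_ncard
    · rintro n ⟨h1, h2, h3⟩; exact ⟨h1, h2, h h3⟩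
    · exact (Set.finite_Icc 1 N).subset (fun n hn => ⟨hn.1, hn.2.1⟩)
  exact_mod_cast this

theorem persist {k t : ℕ} (hkt : k ≤ t) {x y : ℤ} (h : (Tz 1)^[k] x = (Tz 1)^[k] y) :
    (Tz 1)^[t] x = (Tz 1)^[t] y := by
  obtain ⟨j, rfl⟩ := Nat.exists_eq_add_of_le hkt
  rw [add_comm, Function.iterate_add_apply, Function.iterate_add_apply, h]

theorem Di_le_q (k : ℕ) (r : ℤ) : Di (k + 1) (0, r) ≤ q step (0, 0) k (0, r) := by
  refine HDn_mono ?_ (dens_dis (k + 1) r) (dens_merge k r)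
  rintro x ⟨J, hn, hJ⟩ h
  have : J ⊆ range k := by
    intro j hj
    rw [mem_range]
    by_contra hjk
    apply hJ j hj
    rw [persist (not_lt.1 hjk) h]
  have := card_le_card this
  rw [card_range] at this
  omega

theorem Nb_sum (s : ℕ × ℤ) : ∀ k : ℕ, ∑ t ∈ range k, (P^[t] bz) s = Nb bz k s := by
  intro k
  induction k with
  | zero => rfl
  | succ k ih =>
    rw [sum_range_succ, ih, Nb_add bz 1 k s]
    congr 1
    have : Nb bz 1 = bz := by
      funext s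
      rw [Nb_succ]
      have : P (Nb bz 0) s = 0 := by unfold P; simp [Nb]
      rw [this, add_zero]
    rw [this]

theorem P_iter_nonneg {F : ℕ × ℤ → ℝ} (h : ∀ s, 0 ≤ F s) : ∀ (k : ℕ) (s : ℕ × ℤ), 0 ≤ (P^[k] F) s := by
  intro k
  induction k with
  | zero => exact h
  | succ k ih => intro s; rw [Function.iterate_succ_apply']; exact P_nonneg ih s

theorem Nb_hasSum (s : ℕ × ℤ) : HasSum (fun t => (P^[t] bz) s) (Ni bz s) := by
  rw [hasSum_iff_tendsto_nat_of_nonneg (fun t => P_iter_nonneg bz_nonneg t s)]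
  exact (Ni_tendsto bz_nonneg bz_le s).congr (fun k => (Nb_sum s k).symm)

end Pool.Agent.K6.H38.CT
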