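import Mathlib
import Pool.Agent.K6.H38.CT.H

set_option autoImplicit false

namespace Pool.Agent.K6.H38.CT

open Finset Filter Topology
open Pool.Agent.H499R2.CO

/-! Pairs split by invariant sets, and the constants in terms of `log |r|`. -/

theorem exists_u (r : ℤ) (hr : r ≠ 0) : ∃ u : ℕ, |(r : ℝ)| ≤ 4 ^ u ∧ 1 + (u : ℝ) ≤ 2 * (1 + Real.log |(r : ℝ)|) := by
  have h1 : (1 : ℝ) ≤ |(r : ℝ)| := by exact_mod_cast Int.one_le_abs hr
  have hl : 0 ≤ Real.log |(r : ℝ)| := Real.log_nonneg h1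
  have hl4 : 1 ≤ Real.log 4 := by
    rw [show (4 : ℝ) = 2 ^ 2 by norm_num, Real.log_pow]
    have := Real.log_two_gt_d9
    push_cast; linarith
  refine ⟨⌈Real.log |(r : ℝ)| / Real.log 4⌉₊, ?_, ?_⟩
  · have h2 := Nat.le_ceil (Real.log |(r : ℝ)| / Real.log 4)
    rw [div_le_iff₀ (by linarith)] at h2
    rw [← Real.log_le_log_iff (by linarith) (by positivity), Real.log_pow]
    exact h2
  · have h2 := Nat.ceil_lt_add_one (show 0 ≤ Real.log |(r : ℝ)| / Real.log 4 by positivity)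
    have h3 : Real.log |(r : ℝ)| / Real.log 4 ≤ Real.log |(r : ℝ)| := div_le_self hl hl4
    linarith

/-- The rate, in terms of `log |r|`. -/
theorem q_log : ∃ K : ℝ, 0 < K ∧ ∀ (r : ℤ), r ≠ 0 → ∀ (k : ℕ),
    √ (k : ℝ) * q step (0, 0) k (0, r) ≤ K * √ (1 + Real.log |(r : ℝ)|) := by
  obtain ⟨C, hC, hq⟩ := q_sharp
  refine ⟨2 * C, by positivity, fun r hr k => ?_⟩
  obtain ⟨u, hu1, hu2⟩ := exists_u r hr
  have hL : 0 ≤ √ (1 + Real.log |(r : ℝ)|) := Real.sqrt_nonneg _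
  rcases Nat.eq_zero_or_pos k with rfl | hk
  · rw [Nat.cast_zero, Real.sqrt_zero, zero_mul]; positivity
  · have h1 := hq k hk 0 u r hu1
    have hk0 : 0 < √ (k : ℝ) := Real.sqrt_pos.2 (by exact_mod_cast hk)
    rw [le_div_iff₀ hk0] at h1
    have h2 : √ (1 + ((0 : ℕ) : ℝ) ^ 2 + u) ≤ 2 * √ (1 + Real.log |(r : ℝ)|) := by
      have e : (2 : ℝ) = √ 4 := by
        rw [show (4 : ℝ) = 2 ^ 2 by norm_num, Real.sqrt_sq (by norm_num)]
      rw [e, ← Real.sqrt_mul (by norm_num)]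
      apply Real.sqrt_le_sqrt
      push_cast
      have h3 : (1 : ℝ) ≤ |(r : ℝ)| := by exact_mod_cast Int.one_le_abs hr
      have hl : 0 ≤ Real.log |(r : ℝ)| := Real.log_nonneg h3
      nlinarith
    nlinarith

theorem N_log : ∃ K : ℝ, 0 < K ∧ ∀ (r : ℤ), r ≠ 0 → Ni bz (0, r) ≤ K * √ (1 + Real.log |(r : ℝ)|) := by
  obtain ⟨C, hC, hN⟩ := Ni_sharp
  refine ⟨2 * C, by positivity, fun r hr => ?_⟩
  obtain ⟨u, hu1, hu2⟩ := exists_u r hr
  have h1 := hN 0 u r hu1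
  have h2 : √ (1 + ((0 : ℕ) : ℝ) ^ 2 + u) ≤ 2 * √ (1 + Real.log |(r : ℝ)|) := by
    have e : (2 : ℝ) = √ 4 := by
      rw [show (4 : ℝ) = 2 ^ 2 by norm_num, Real.sqrt_sq (by norm_num)]
    rw [e, ← Real.sqrt_mul (by norm_num)]
    apply Real.sqrt_le_sqrt
    push_cast
    have h3 : (1 : ℝ) ≤ |(r : ℝ)| := by exact_mod_cast Int.one_le_abs hr
    have hl : 0 ≤ Real.log |(r : ℝ)| := Real.log_nonneg h3
    nlinarith
  nlinarith

/-- number of `|x| ≤ N` in a set contained in the survivors -/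
theorem ncard_surv (k : ℕ) (r : ℤ) (N : ℕ) (hN : 2 ^ k ≤ N) (S : Set ℤ)
    (hS : ∀ x ∈ S, |x| ≤ N ∧ stt k (0, r) x ≠ (0, 0)) :
    (S.ncard : ℝ) ≤ 4 * N * q step (0, 0) k (0, r) + 1 := by
  classical
  set A : Set ℤ := {x | stt k (0, r) x ≠ (0, 0)} with hA
  set F1 : Finset ℤ := ((range N).filter (fun j : ℕ => (1 * (j : ℤ) + 1) ∈ A)).image (fun j : ℕ => 1 * (j : ℤ) + 1) with hF1
  set F2 : Finset ℤ := ((range N).filter (fun j : ℕ => ((-1) * (j : ℤ) + (-1)) ∈ A)).image (fun j : ℕ => (-1) * (j : ℤ) + (-1)) with hF2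
  have hsub : S ⊆ ((F1 ∪ F2 ∪ {0} : Finset ℤ) : Set ℤ) := by
    intro x hx
    obtain ⟨h1, h2⟩ := hS x hx
    rw [mem_coe, mem_union, mem_union, mem_singleton]
    rcases lt_trichotomy x 0 with h | h | h
    · left; right
      rw [hF2, mem_image]
      have h3 : (-1) * (((-x - 1).toNat : ℕ) : ℤ) + (-1) = x := by
        rw [Int.toNat_of_nonneg (by omega)]; ring
      refine ⟨(-x - 1).toNat, ?_, h3⟩
      rw [mem_filter, mem_range, h3]
      rw [abs_of_neg h] at h1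
      exact ⟨by omega, h2⟩
    · right; exact h
    · left; left
      rw [hF1, mem_image]
      have h3 : 1 * (((x - 1).toNat : ℕ) : ℤ) + 1 = x := by
        rw [Int.toNat_of_nonneg (by omega)]; ring
      refine ⟨(x - 1).toNat, ?_, h3⟩
      rw [mem_filter, mem_range, h3]
      rw [abs_of_pos h] at h1
      exact ⟨by omega, h2⟩
  have h1 : S.ncard ≤ #(F1 ∪ F2 ∪ {0}) := by
    rw [← Set.ncard_coe_finset]
    exact Set.ncard_le_ncard hsub (Finset.finite_toSet _)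
  have h2 : #(F1 ∪ F2 ∪ {0}) ≤ #F1 + #F2 + 1 := by
    refine (card_union_le _ _).trans ?_
    rw [card_singleton]
    exact Nat.add_le_add_right (card_union_le _ _) 1
  have hcount : ∀ s : ℤ, s % 2 = 1 → (#((range N).filter (fun j : ℕ => (s * (j : ℤ) + s) ∈ A)) : ℝ) ≤
      2 * N * q step (0, 0) k (0, r) := by
    intro s hs
    have h3 := (count_per (k := k) (g := fun x => gn k (0, r) x) (fun x => gn_nonneg k _ x)
      (fun x m => gn_per k _ x m) (sum_of_Mn (Mn_gn k _)) hs N).2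
    have h4 : (#((range N).filter (fun j : ℕ => (s * (j : ℤ) + s) ∈ A)) : ℝ) =
        ∑ j ∈ range N, gn k (0, r) (s * (j : ℕ) + s) := by
      rw [card_filter]
      push_cast
      apply sum_congr rfl
      intro j _
      unfold gn
      by_cases h : stt k (0, r) (s * (j : ℤ) + s) = (0, 0)
      · rw [if_pos h, if_neg (by rw [hA, Set.mem_ofPred_eq, not_not]; exact h)]
      · rw [if_neg h, if_pos (by rw [hA, Set.mem_ofPred_eq]; exact h)]
    rw [h4]
    have h5 : (2 : ℝ) ^ k ≤ N := by exact_mod_cast hN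
    have h6 := q_nonneg step ((0 : ℕ), (0 : ℤ)) k (0, r)
    nlinarith
  have h3 : (#F1 : ℝ) ≤ 2 * N * q step (0, 0) k (0, r) := by
    have h4 : #F1 ≤ #((range N).filter (fun j : ℕ => (1 * (j : ℤ) + 1) ∈ A)) := card_image_le
    have h5 := hcount 1 (by norm_num)
    exact (by exact_mod_cast h4 : (#F1 : ℝ) ≤ _).trans h5
  have h4 : (#F2 : ℝ) ≤ 2 * N * q step (0, 0) k (0, r) := by
    have h4 : #F2 ≤ #((range N).filter (fun j : ℕ => ((-1) * (j : ℤ) + (-1)) ∈ A)) := card_image_le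
    have h5 := hcount (-1) (by norm_num)
    exact (by exact_mod_cast h4 : (#F2 : ℝ) ≤ _).trans h5
  have h5 : (S.ncard : ℝ) ≤ #F1 + #F2 + 1 := by exact_mod_cast h1.trans h2
  linarith

/-- PAIRS SPLIT BY INVARIANT SETS -/
theorem split_pairs : ∃ K : ℝ, 0 < K ∧ ∀ (r : ℤ), r ≠ 0 → ∀ S : Set ℤ, (∀ x, x ∈ S ↔ Tz 1 x ∈ S) →
    ∀ N : ℕ, 2 ≤ N → ({x : ℤ | |x| ≤ N ∧ ¬ (x ∈ S ↔ x + r ∈ S)}.ncard : ℝ) ≤
      K * √ (1 + Real.log |(r : ℝ)|) * N / √ (Real.log N) := by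
  obtain ⟨C, hC, hq⟩ := q_log
  refine ⟨6 * C + 1, by positivity, fun r hr S hS N hN => ?_⟩
  set L := √ (1 + Real.log |(r : ℝ)|) with hLdef
  have h3 : (1 : ℝ) ≤ |(r : ℝ)| := by exact_mod_cast Int.one_le_abs hr
  have hl : 0 ≤ Real.log |(r : ℝ)| := Real.log_nonneg h3
  have hL1 : 1 ≤ L := Real.one_le_sqrt.2 (by linarith)
  have hNr : (2 : ℝ) ≤ N := by exact_mod_cast hN
  have hlN : 0 < Real.log N := Real.log_pos (by linarith)
  have hsN : 0 < √ (Real.log N) := Real.sqrt_pos.2 hlN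
  set k := Nat.log 2 N with hk
  have hk1 : 1 ≤ k := by
    rw [hk]; exact Nat.log_pos (by norm_num) hN
  have hk2 : 2 ^ k ≤ N := Nat.pow_log_le_self 2 (by omega)
  have hk3 : N < 2 ^ (k + 1) := Nat.lt_pow_succ_log_self (by norm_num) N
  have hit : ∀ (j : ℕ) (z : ℤ), z ∈ S ↔ (Tz 1)^[j] z ∈ S := by
    intro j
    induction j with
    | zero => intro z; rfl
    | succ j ih => intro z; rw [Function.iterate_succ_apply, hS z, ih]
  have h1 := ncard_surv k r N hk2 {x : ℤ | |x| ≤ N ∧ ¬ (x ∈ S ↔ x + r ∈ S)} (by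
    rintro x ⟨hx, hne⟩
    refine ⟨hx, fun h0 => hne ?_⟩
    rw [hit k x, hit k (x + r), coal_of h0])
  have h2 := hq r hr k
  have hkr : (1 : ℝ) ≤ k := by exact_mod_cast hk1
  have hsk : 0 < √ (k : ℝ) := Real.sqrt_pos.2 (by linarith)
  have h4 : √ (Real.log N) ≤ 1.25 * √ (k : ℝ) := by
    have e : Real.log N ≤ (k + 1) * Real.log 2 := by
      have := Real.log_le_log (by linarith) (show (N : ℝ) ≤ 2 ^ (k + 1) by exact_mod_cast hk3.le)
      rw [Real.log_pow] at this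
      push_cast at this
      exact this
    have h5 := Real.log_two_lt_d9
    rw [Real.sqrt_le_left (by positivity), mul_pow, Real.sq_sqrt (by positivity)]
    nlinarith
  have h5 : q step (0, 0) k (0, r) * √ (Real.log N) ≤ 1.25 * (C * L) := by
    have h6 := q_nonneg step ((0 : ℕ), (0 : ℤ)) k (0, r)
    calc q step (0, 0) k (0, r) * √ (Real.log N) ≤ q step (0, 0) k (0, r) * (1.25 * √ (k : ℝ)) :=
          mul_le_mul_of_nonneg_left h4 h6
      _ = 1.25 * (√ (k : ℝ) * q step (0, 0) k (0, r)) := by ring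
      _ ≤ _ := by linarith
  have h6 : √ (Real.log N) ≤ N := by
    rw [Real.sqrt_le_left (by linarith)]
    have := Real.log_le_sub_one_of_pos (show (0 : ℝ) < N by linarith)
    nlinarith
  rw [le_div_iff₀ hsN]
  calc _ ≤ (4 * N * q step (0, 0) k (0, r) + 1) * √ (Real.log N) := mul_le_mul_of_nonneg_right h1 hsN.le
    _ = 4 * N * (q step (0, 0) k (0, r) * √ (Real.log N)) + √ (Real.log N) := by ring
    _ ≤ 4 * N * (1.25 * (C * L)) + N * L := by
        have e1 := mul_le_mul_of_nonneg_left h5 (show (0 : ℝ) ≤ 4 * N by positivity)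
        have e2 : (N : ℝ) ≤ N * L := by nlinarith
        linarith
    _ ≤ (6 * C + 1) * L * N := by
        have : 0 ≤ C * L * N := by positivity
        nlinarith

end Pool.Agent.K6.H38.CT
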